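import Pool.Agent.MP_a8d80e_an.H53.Lap

set_option autoImplicit false

namespace Pool.Agent.MP_a8d80e_an.H53

open Metric Filter Topology

variable {n : ℕ}

theorem ud : UniqueDiffOn ℝ (closedBall (0 : E n) 1) :=
  uniqueDiffOn_convex (convex_closedBall _ _)
    ⟨0, interior_maximal ball_subset_closedBall isOpen_ball (mem_ball_self one_pos)⟩

theorem cb_nhds {x : E n} (hx : x ∈ ball (0 : E n) 1) : closedBall (0 : E n) 1 ∈ 𝓝 x :=
  mem_of_superset (isOpen_ball.mem_nhds hx) ball_subset_closedBall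

theorem sm_of {k : ℕ} {f : E n → ℝ} (h : ContDiffOn ℝ k f (closedBall 0 1)) : Sm k f :=
  fun _ hx => h.contDiffAt (cb_nhds hx)

/-- the coordinate derivative within the closed ball -/
noncomputable def Dw (i : Fin n) (f : E n → ℝ) : E n → ℝ :=
  fun x => fderivWithin ℝ f (closedBall 0 1) x (ee i)

theorem Dw_eq (i : Fin n) (f : E n → ℝ) : Eb (Dw i f) (D i f) := fun _ hx => by
  simp only [Dw, D, fderivWithin_of_mem_nhds (cb_nhds hx)]

theorem cd_fw {k : ℕ} {f : E n → ℝ} (h : ContDiffOn ℝ (k + 1 : ℕ) f (closedBall 0 1)) :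
    ContDiffOn ℝ k (fderivWithin ℝ f (closedBall 0 1)) (closedBall 0 1) :=
  h.fderivWithin ud (by simp)

theorem cd_Dw {k : ℕ} {f : E n → ℝ} (h : ContDiffOn ℝ (k + 1 : ℕ) f (closedBall 0 1))
    (i : Fin n) : ContDiffOn ℝ k (Dw i f) (closedBall 0 1) :=
  (cd_fw h).clm_apply contDiffOn_const

theorem sweep {u : E n → ℝ} (hc : ContinuousOn u (closedBall 0 1))
    (h0 : ∀ x ∈ sphere (0 : E n) 1, 0 ≤ u x) {δ : ℝ} (hδ : 0 < δ)
    (h : ∀ k > 0, ∀ x ∈ ball (0 : E n) 1,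
      IsLocalMin (fun y => u y + k * (1 + δ - ‖y‖ ^ 2)) x → u x + k * (1 + δ - ‖x‖ ^ 2) ≠ 0) :
    ∀ x ∈ closedBall (0 : E n) 1, 0 ≤ u x := by
  have hp : ∀ y ∈ closedBall (0 : E n) 1, 0 < 1 + δ - ‖y‖ ^ 2 := by
    intro y hy
    rw [mem_closedBall_zero_iff] at hy
    nlinarith [norm_nonneg y]
  obtain ⟨x, hx, hm⟩ := (isCompact_closedBall (0 : E n) 1).exists_isMinOn
    ⟨0, mem_closedBall_self zero_le_one⟩ (f := fun y => u y / (1 + δ - ‖y‖ ^ 2))
    (hc.div (by fun_prop) fun y hy => (hp y hy).ne')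
  intro z hz
  by_contra hneg
  push Not at hneg
  have h1 : u x / (1 + δ - ‖x‖ ^ 2) < 0 := (hm hz).trans_lt (div_neg_of_neg_of_pos hneg (hp z hz))
  have h2 : u x < 0 := by
    by_contra h3
    push Not at h3
    exact absurd (div_nonneg h3 (hp x hx).le) (not_le.2 h1)
  have h3 : x ∈ ball (0 : E n) 1 := by
    rw [mem_closedBall_zero_iff] at hx
    rw [mem_ball_zero_iff]
    exact lt_of_le_of_ne hx fun e => absurd (h0 x (by simpa using e)) (not_le.2 h2)
  have h4 : u x + -(u x / (1 + δ - ‖x‖ ^ 2)) * (1 + δ - ‖x‖ ^ 2) = 0 := by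
    rw [neg_mul, div_mul_cancel₀ _ (hp x hx).ne']; ring
  refine h _ (neg_pos.2 h1) x h3 ?_ h4
  filter_upwards [cb_nhds h3] with y hy
  have h5 : u x / (1 + δ - ‖x‖ ^ 2) ≤ u y / (1 + δ - ‖y‖ ^ 2) := hm hy
  rw [le_div_iff₀ (hp y hy)] at h5
  linarith

theorem aff (a : ℝ) : ContDiff ℝ (2 : ℕ) (fun s : ℝ => a - s) ∧
    (deriv fun s : ℝ => a - s) = (fun _ => -1) ∧
    A n (fun s : ℝ => a - s) = fun _ => -(2 * (n : ℝ)) := by
  have h : (deriv fun s : ℝ => a - s) = fun _ => -1 := by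
    ext s
    simp
  refine ⟨by fun_prop, h, ?_⟩
  ext s
  simp [A, h]

/-- Boggio's principle in the ball -/
theorem boggio (hn : 0 < n) {h : E n → ℝ} (hs : ContDiffOn ℝ (4 : ℕ) h (closedBall 0 1))
    (h0 : ∀ x ∈ sphere (0 : E n) 1, h x = 0)
    (h1 : ∀ x ∈ sphere (0 : E n) 1, fderivWithin ℝ h (closedBall 0 1) x x = 0)
    (hL : ∀ x ∈ ball (0 : E n) 1, 0 ≤ L (L h) x) : ∀ x ∈ closedBall (0 : E n) 1, 0 ≤ h x := by
  have hn' : (1 : ℝ) ≤ n := by exact_mod_cast hn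
  have s4 : Sm 4 h := sm_of hs
  have s2 : Sm 2 h := s4.mono (by norm_num)
  have sL : Sm 2 (L h) := s4.L
  have sR : Sm 2 (R h) := (s4.mono (l := 3) (by norm_num)).R
  have sρ : ∀ a : ℝ, Sm 2 fun x : E n => a - ‖x‖ ^ 2 := fun a => Sm.rad (aff (n := n) a).1
  have Lρ : ∀ a : ℝ, Eb (L fun x : E n => a - ‖x‖ ^ 2) fun _ => -(2 * n) := fun a x hx => by
    rw [L_rad (aff (n := n) a).1 x hx, (aff a).2.2]
  let w : E n → ℝ := fun x => (1 - ‖x‖ ^ 2) * L h x + (4 * R h x + (2 * n - 8) * h x)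
  have sw : Sm 2 w := ((sρ 1).mul sL).add (((Sm.const 4).mul sR).add ((Sm.const _).mul s2))
  have Lw : Eb (L w) fun x => (1 - ‖x‖ ^ 2) * L (L h) x := by
    intro x hx
    rw [L_add ((sρ 1).mul sL) (((Sm.const 4).mul sR).add ((Sm.const _).mul s2)) x hx]
    beta_reduce
    rw [L_mul_rad (aff (n := n) 1).1 sL x hx, L_add ((Sm.const 4).mul sR) ((Sm.const _).mul s2) x hx]
    beta_reduce
    rw [L_cmul sR 4 x hx, L_cmul s2 _ x hx, (aff (n := n) 1).2.1, (aff 1).2.2]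
    beta_reduce
    rw [L_R (s4.mono (by norm_num)) x hx]
    ring
  let v : E n → ℝ := fun x => -1 * ((1 - ‖x‖ ^ 2) * ∑ i, Dw i (Dw i h) x +
    (4 * fderivWithin ℝ h (closedBall 0 1) x x + (2 * n - 8) * h x))
  have ev : Eb v fun x => -1 * w x := by
    intro x hx
    have e : ∀ i, Dw i (Dw i h) x = D i (D i h) x := fun i =>
      (Dw_eq i _ x hx).trans ((Dw_eq i h).D i x hx)
    simp only [v, w, e, L, R, fderivWithin_of_mem_nhds (cb_nhds hx)]
  have sv : Sm 2 v := ((Sm.const _).mul sw).congr ev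
  have cv : ContinuousOn v (closedBall 0 1) := by
    have c1 : ∀ i, ContinuousOn (Dw i (Dw i h)) (closedBall 0 1) := fun i =>
      (cd_Dw (cd_Dw hs i) i).continuousOn
    have c2 := ((cd_fw hs).clm_apply contDiffOn_id).continuousOn
    have c3 := hs.continuousOn
    exact continuousOn_const.mul ((ContinuousOn.mul (by fun_prop)
      (continuousOn_finsetSum _ fun i _ => c1 i)).add
      ((continuousOn_const.mul c2).add (continuousOn_const.mul c3)))
  have hv : ∀ x ∈ closedBall (0 : E n) 1, 0 ≤ v x := by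
    refine sweep cv (fun x hx => ?_) one_pos fun k hk x hx hm _ => ?_
    · have : ‖x‖ = 1 := by simpa using hx
      simp [v, h0 x hx, h1 x hx, this]
    · have g := (at_min (sv.add ((Sm.const k).mul (sρ _))) hx hm).2
      rw [L_add sv ((Sm.const k).mul (sρ _)) x hx] at g
      beta_reduce at g
      rw [ev.L x hx, L_cmul sw _ x hx, L_cmul (sρ _) k x hx] at g
      beta_reduce at g
      rw [Lw x hx, Lρ _ x hx] at g
      have g1 := hL x hx
      rw [mem_ball_zero_iff] at hx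
      have g2 : 0 ≤ 1 - ‖x‖ ^ 2 := by nlinarith [norm_nonneg x]
      have := mul_nonneg g2 g1
      nlinarith
  refine sweep hs.continuousOn (fun x hx => (h0 x hx).ge) (δ := 1 / n) (by positivity)
    fun k hk x hx hm hz => ?_
  obtain ⟨g1, g2⟩ := at_min (s2.add ((Sm.const k).mul (sρ _))) hx hm
  rw [L_add s2 ((Sm.const k).mul (sρ _)) x hx] at g2
  beta_reduce at g2
  rw [L_cmul (sρ _) k x hx] at g2
  beta_reduce at g2
  rw [Lρ _ x hx] at g2
  have g3 : R (fun y => h y + k * (1 + 1 / n - ‖y‖ ^ 2)) x = R h x + k * (-2 * ‖x‖ ^ 2) := by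
    have e := R_rad (F := fun s : ℝ => 1 + 1 / n - s) (by fun_prop) x
    rw [(aff (n := n) _).2.1] at e
    simp only [R] at e ⊢
    rw [fderiv_fun_add (s2.diff hx) (((Sm.const k).mul (sρ _)).diff hx),
      fderiv_const_mul ((sρ _).diff hx)]
    simp only [add_apply, smul_apply, e, smul_eq_mul]
    ring
  have g4 := hv x (ball_subset_closedBall hx)
  rw [ev x hx] at g4
  simp only [w] at g4
  rw [mem_ball_zero_iff] at hx
  have g5 : 0 ≤ 1 - ‖x‖ ^ 2 := by nlinarith [norm_nonneg x]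
  have g6 := mul_nonneg g5 g2
  have g7 : (n : ℝ) * (1 / n) = 1 := by field_simp
  have g8 : 0 < 1 / (n : ℝ) := by positivity
  have e1 : R h x = 2 * k * ‖x‖ ^ 2 := by linarith
  have e2 : h x = -(k * (1 + 1 / n - ‖x‖ ^ 2)) := by linarith
  rw [e1, e2] at g4
  have : k * (8 + 8 * (1 / n) - 2 * (n * (1 / n))) ≤ 0 := by nlinarith
  rw [g7] at this
  nlinarith

end Pool.Agent.MP_a8d80e_an.H53
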