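import Pool.Agent.MP_a8d80e_an.H53.Ode

set_option autoImplicit false

namespace Pool.Agent.MP_a8d80e_an.H53

open Filter Topology Set

/-- evaluation of a list of coefficients -/
def ev : List ℚ → ℝ → ℝ
  | [], _ => 0
  | c :: p, x => c + x * ev p x

def padd : List ℚ → List ℚ → List ℚ
  | [], q => q
  | a :: p, [] => a :: p
  | a :: p, b :: q => (a + b) :: padd p q

def psm (c : ℚ) : List ℚ → List ℚ
  | [] => []
  | a :: p => (c * a) :: psm c p

def pmul : List ℚ → List ℚ → List ℚ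
  | [], _ => []
  | a :: p, q => padd (psm a q) (0 :: pmul p q)

theorem ev_padd (x : ℝ) : ∀ p q, ev (padd p q) x = ev p x + ev q x
  | [], q => by simp [padd, ev]
  | a :: p, [] => by simp [padd, ev]
  | a :: p, b :: q => by simp only [padd, ev, ev_padd x p q]; push_cast; ring

theorem ev_psm (x : ℝ) (c : ℚ) : ∀ p, ev (psm c p) x = c * ev p x
  | [] => by simp [psm, ev]
  | a :: p => by simp only [psm, ev, ev_psm x c p]; push_cast; ring

theorem ev_pmul (x : ℝ) : ∀ p q, ev (pmul p q) x = ev p x * ev q x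
  | [], q => by simp [pmul, ev]
  | a :: p, q => by simp only [pmul, ev, ev_padd, ev_psm, ev_pmul x p q]; push_cast; ring

def mob (a b : ℚ) : List ℚ → List ℚ × List ℚ
  | [] => ([], [1])
  | c :: p => (padd (psm c (pmul [1, 1] (mob a b p).2)) (pmul [a, b] (mob a b p).1),
      pmul [1, 1] (mob a b p).2)

theorem ev_mob {a b : ℚ} {x y : ℝ} (h : x * (1 + y) = a + b * y) (hy : 0 ≤ y) :
    ∀ p, ev (mob a b p).1 y = ev (mob a b p).2 y * ev p x ∧ 0 < ev (mob a b p).2 y
  | [] => by simp [mob, ev]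
  | c :: p => by
    obtain ⟨h1, h2⟩ := ev_mob h hy p
    simp only [mob, ev_padd, ev_psm, ev_pmul, ev, h1]
    push_cast
    refine ⟨?_, by positivity⟩
    linear_combination -(ev (mob a b p).2 y * ev p x) * h

theorem ev_nonneg {y : ℝ} (hy : 0 ≤ y) : ∀ p : List ℚ, p.all (fun c => decide (0 ≤ c)) = true →
    0 ≤ ev p y
  | [], _ => le_rfl
  | c :: p, h => by
    simp only [List.all_cons, Bool.and_eq_true, decide_eq_true_eq] at h
    have h1 : (0 : ℝ) ≤ c := by exact_mod_cast h.1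
    exact add_nonneg h1 (mul_nonneg hy (ev_nonneg hy p h.2))

def okI (a b : ℚ) (p : List ℚ) : Bool := (mob a b p).1.all fun c => decide (0 ≤ c)

theorem okI_ok {a b : ℚ} {p : List ℚ} (h : okI a b p = true) {x y : ℝ}
    (e : x * (1 + y) = a + b * y) (hy : 0 ≤ y) : 0 ≤ ev p x := by
  have h1 := ev_nonneg hy _ h
  rw [(ev_mob e hy p).1] at h1
  exact (mul_nonneg_iff_of_pos_left (ev_mob e hy p).2).1 h1

/-- a sufficient test for nonnegativity on an interval cut at the listed points -/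
def chk (p : List ℚ) (b : ℚ) : ℚ → List ℚ → Bool
  | a, [] => okI a b p && okI b b p
  | a, c :: t => okI a c p && chk p b c t

theorem okI_lt {a b : ℚ} {p : List ℚ} (h : okI a b p = true) {x : ℝ} (h1 : (a : ℝ) ≤ x)
    (h2 : x < b) : 0 ≤ ev p x := by
  have := sub_pos.2 h2
  refine okI_ok h (y := (x - a) / (b - x)) ?_ (div_nonneg (sub_nonneg.2 h1) this.le)
  field_simp
  ring

theorem chk_ok {p : List ℚ} {b : ℚ} {x : ℝ} (hb : x ≤ b) :
    ∀ t a, chk p b a t = true → (a : ℝ) ≤ x → 0 ≤ ev p x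
  | [], a, h, ha => by
    simp only [chk, Bool.and_eq_true] at h
    rcases hb.eq_or_lt with e | c
    · exact okI_ok h.2 (y := 0) (by simp [e]) le_rfl
    · exact okI_lt h.1 ha c
  | c :: t, a, h, ha => by
    simp only [chk, Bool.and_eq_true] at h
    rcases lt_or_ge x c with d | d
    · exact okI_lt h.1 ha d
    · exact chk_ok hb t c h.2 d

/-- a sum of powers with half-integer exponents, starting at `s / 2` -/
noncomputable def val : ℤ → List ℚ → ℝ → ℝ
  | _, [], _ => 0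
  | s, c :: l, r => c * r ^ ((s : ℝ) / 2) + val (s + 1) l r

def mp (φ : ℚ → ℚ) : ℤ → List ℚ → List ℚ
  | _, [] => []
  | s, c :: l => (c * φ (s / 2)) :: mp φ (s + 1) l

def PQ (m : ℕ) (a : ℚ) : ℚ := a * (a + m - 1) * (a - 2) * (a + m - 3)

def adm (m : ℕ) : ℤ → List ℚ → Bool
  | _, [] => true
  | s, c :: l => decide (c = 0 ∨ s = 0 ∨ (s = 4 ∨ 0 < s + 2 * m - 6) ∧ 0 < s + 2 * m - 2) &&
      adm m (s + 1) l

theorem val_eq {r : ℝ} (hr : 0 < r) : ∀ l s, val s l r = √r ^ s * ev l √r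
  | [], s => by simp [val, ev]
  | c :: l, s => by
    have h := Real.sqrt_pos.2 hr
    have e : r ^ ((s : ℝ) / 2) = √r ^ s := by
      rw [Real.sqrt_eq_rpow, ← Real.rpow_intCast, ← Real.rpow_mul hr.le]
      congr 1
      ring
    simp only [val, ev, val_eq hr l, e, zpow_add₀ h.ne', zpow_one]
    ring

theorem val_bi (m : ℕ) : ∀ l s, adm m s l = true →
    Bi m (val s l) (val (s - 2) (mp id s l)) (val (s - 8) (mp (PQ m) s l))
  | [], s, _ => (Bi.const 0).congr (by simp [val]) (by simp [val, mp]) (by simp [val, mp])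
  | c :: l, s, h => by
    simp only [adm, Bool.and_eq_true, decide_eq_true_eq] at h
    refine ((Bi.rpow ((s : ℝ) / 2) c ?_).lin 1 1 (val_bi m l (s + 1) h.2)).congr
      (fun r _ => ?_) (fun r _ => ?_) fun r _ => ?_
    · rcases h.1 with h | h | ⟨h, h'⟩
      · simp [h]
      · simp [h]
      · have h2 : (0 : ℝ) < s + 2 * m - 2 := by exact_mod_cast h'
        refine Or.inr (Or.inr ⟨h.imp (fun h => by rw [h]; norm_num) fun h => ?_, by linarith⟩)
        have h3 : (0 : ℝ) < s + 2 * m - 6 := by exact_mod_cast h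
        linarith
    · simp [val]
    · simp only [val, mp, id, show s - 2 + 1 = s + 1 - 2 by ring]
      push_cast
      rw [show ((s : ℝ) - 2) / 2 = s / 2 - 1 by ring]
      ring
    · simp only [val, mp, PQ, PP, show s - 8 + 1 = s + 1 - 8 by ring]
      push_cast
      rw [show ((s : ℝ) - 8) / 2 = s / 2 - 4 by ring]
      ring

def X8 : List ℚ := [0, 0, 0, 0, 0, 0, 0, 0, 1]

/-- the finite test behind a certificate -/
def cok (m : ℕ) (zl fl : List ℚ) (z0 x0 : ℚ) (t u : List ℚ) : Bool :=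
  adm m 0 zl && adm m (-2) fl && decide (0 < z0) && chk (padd zl [-z0]) 1 0 [] &&
  chk (padd [10] (psm (-1) zl)) 1 0 [] &&
  chk (psm (-1) (padd (pmul zl (mp (PQ m) 0 zl)) X8)) 1 0 t &&
  chk (padd [0, 0, 10] (psm (-1) fl)) 1 0 t &&
  chk (padd (pmul X8 fl) (psm (-1) (pmul (pmul zl zl) (mp (PQ m) (-2) fl)))) 1 x0 u &&
  chk (psm (-1) (mp (PQ m) (-2) fl)) x0 0 [] && chk (mp id 0 zl) 1 1 [] &&
  chk (psm (-1) fl) 1 1 [] && chk (mp id (-2) fl) 1 1 [] &&
  chk (padd fl [-1 / 100]) (1 / 2) (1 / 2) []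

theorem cert_of {m : ℕ} {zl fl : List ℚ} {z0 x0 : ℚ} {t u : List ℚ}
    (h : cok m zl fl z0 x0 t u = true) : Cert m := by
  simp only [cok, Bool.and_eq_true, decide_eq_true_eq] at h
  obtain ⟨⟨⟨⟨⟨⟨⟨⟨⟨⟨⟨⟨a1, a2⟩, a3⟩, a4⟩, a5⟩, a6⟩, a7⟩, a8⟩, a9⟩, a10⟩, a11⟩, a12⟩, a13⟩ := h
  refine ⟨_, _, _, _, _, _, z0, 10, 1 / 4, val_bi m zl 0 a1, val_bi m fl (-2) a2,
    by exact_mod_cast a3, fun r hr => ?_, ?_, ?_, ?_, by norm_num, ?_⟩
  · have x0' := Real.sqrt_pos.2 hr.1
    have x1 : √r ≤ ((1 : ℚ) : ℝ) := by simpa using hr.2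
    have x2 : ((0 : ℚ) : ℝ) ≤ √r := by simp
    have b4 := chk_ok x1 _ _ a4 x2
    have b5 := chk_ok x1 _ _ a5 x2
    have b6 := chk_ok x1 _ _ a6 x2
    have b7 := chk_ok x1 _ _ a7 x2
    simp only [val_eq hr.1]
    generalize √r = x at *
    have e8 : ev X8 x = x ^ 8 := by simp [ev, X8]; ring
    simp only [ev_padd, ev_psm, ev_pmul, ev, e8] at b4 b5 b6 b7
    push_cast at b4 b5 b6 b7
    have f0 : x ^ (0 - 8 : ℤ) = 1 / x ^ 8 := by norm_num [zpow_neg]
    have f1 : x ^ (-2 : ℤ) = 1 / x ^ 2 := by norm_num [zpow_neg]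
    have f2 : x ^ (-2 - 8 : ℤ) = 1 / x ^ 10 := by norm_num [zpow_neg]
    rw [f0, f1, f2, zpow_zero, one_mul]
    simp only [one_div_mul_eq_div]
    refine ⟨by linarith, by linarith, ?_, ?_, ?_⟩
    · rw [← mul_div_assoc, div_le_iff₀ (by positivity)]; linarith
    · rw [div_le_iff₀ (by positivity)]; linarith
    · rcases le_total x x0 with c | c
      · right
        have b9 := chk_ok c _ _ a9 x2
        simp only [ev_psm] at b9
        push_cast at b9
        exact div_nonpos_of_nonpos_of_nonneg (by linarith) (by positivity)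
      · left
        have b8 := chk_ok x1 _ _ a8 c
        simp only [ev_padd, ev_psm, ev_pmul, e8] at b8
        push_cast at b8
        rw [← mul_div_assoc, div_le_div_iff₀ (by positivity) (by positivity)]
        have := mul_nonneg b8 (sq_nonneg x)
        linarith
  · simpa [val_eq one_pos] using chk_ok (x := 1) (by simp) _ _ a10 (by simp)
  · simpa [val_eq one_pos, ev_psm] using chk_ok (x := 1) (by simp) _ _ a11 (by simp)
  · simpa [val_eq one_pos] using chk_ok (x := 1) (by simp) _ _ a12 (by simp)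
  · have e : √(1 / 4 : ℝ) = 1 / 2 := by
      rw [show (1 / 4 : ℝ) = (1 / 2) ^ 2 by norm_num, Real.sqrt_sq (by norm_num)]
    have := chk_ok (x := 1 / 2) (by simp) _ _ a13 (by simp)
    simp only [ev_padd, ev] at this
    push_cast at this
    rw [val_eq (by norm_num), e]
    exact mul_pos (by positivity) (by linarith)

theorem cert {m : ℕ} (hm : m < 6) : Cert m := by
  interval_cases m
  · exact cert_of (zl := [57/1000, 0, 0, 0, 17/10, 0, 0, -97/100])
      (fl := [0, 0, 327/250, 0, 0, 0, -483/125, 0, 0, 0, 629/100, 0, -1243/250, 0, 619/500])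
      (z0 := 1/100) (x0 := 0) (t := [1/2]) (u := [1/2]) (by decide +kernel)
  · exact cert_of (zl := [3/125, 0, 0, 0, 81/100, 0, -27/50])
      (fl := [0, 0, 67/50, 0, 0, 0, -231/50, 0, 0, 0, 93/5, -229/10, 379/50])
      (z0 := 1/100) (x0 := 0) (t := [1/2]) (u := [1/2]) (by decide +kernel)
  · exact cert_of (zl := [3/625, 0, 0, 3/20, 17/50, 0, -3/10])
      (fl := [0, 0, 79/50, 0, 0, 37/25, -118/5, 166/5, -1267/100])
      (z0 := 1/1000) (x0 := 0) (t := [1/2]) (u := [1/8, 1/4, 1/2]) (by decide +kernel)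
  · exact cert_of (zl := [13/100000, 0, 0, 3/25, 11/50, 0, -103/500])
      (fl := [0, 0, 3/2, 33/10, -48/5, 0, 63/10, 0, -3/2])
      (z0 := 1/100000) (x0 := 1/10) (t := [1/2]) (u := [11/20]) (by decide +kernel)
  · exact cert_of (zl := [23/250000, 0, 0, 13/250, 13/50, 0, -1991/10000])
      (fl := [0, -23/50, 419/50, -19, 13, 0, -23/10, 0, 19/50])
      (z0 := 1/100000) (x0 := 1/10) (t := [1/2]) (u := [13/40, 11/20]) (by decide +kernel)
  · exact cert_of (zl := [7/1000000, 0, 0, 19/2000, 9/25, -2/5, 7/50, 0, -37/1000])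
      (fl := [-7/25, 3, -96/25, 0, 17/20, 0, 21/50, 0, -39/250])
      (z0 := 1/1000000) (x0 := 1/10) (t := [1/4, 1/2]) (u := []) (by decide +kernel)

theorem sing {m : ℕ} (hm : 6 ≤ m) {Λ c : ℝ} (hΛ : 0 < Λ) (hc : c < 1) :
    ∃ δ > 0, ∀ lam F, 0 < lam → lam ≤ Λ → Step m lam F F → (∀ s ∈ Icc (0 : ℝ) 1, F s ≤ c) →
      ∃ G, Lim m (lam + δ) G := by
  have hm' : (6 : ℝ) ≤ m := by exact_mod_cast hm
  have P0 : 0 < PP m (5 / 2) := by
    simp only [PP]
    have : (0 : ℝ) < 5 / 2 + m - 3 := by linarith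
    have : (0 : ℝ) < 5 / 2 + m - 1 := by linarith
    positivity
  obtain ⟨a, a0, ha⟩ : ∃ a : ℝ, 0 < a ∧ a ^ 2 * PP m (5 / 2) = 4 :=
    ⟨√(4 / PP m (5 / 2)), by positivity, by rw [Real.sq_sqrt (by positivity)]; field_simp⟩
  have P1 : 372 / 100 ≤ a ^ 2 * (2 * PP m (-1)) := by
    have : 93 / 100 * PP m (5 / 2) ≤ 2 * PP m (-1) := by
      simp only [PP]
      nlinarith
    nlinarith [mul_le_mul_of_nonneg_left this (sq_nonneg a)]
  have bz := (Bi.const 0).lin 0 a (val_bi m [1, -4 / 5] 4 (by simp [adm]; omega))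
  have bg := val_bi m [2, 0, -299 / 100, 0, 0, 0, 1] (-2) (by simp [adm]; omega)
  have q2 : ((PQ m 2 : ℚ) : ℝ) = 0 := by simp [PQ]
  have q0 : ((PQ m 0 : ℚ) : ℝ) = 0 := by simp [PQ]
  have q5 : ((PQ m (5 / 2) : ℚ) : ℝ) = PP m (5 / 2) := by simp [PQ, PP]
  have q1 : ((PQ m (-1) : ℚ) : ℝ) = PP m (-1) := by simp [PQ, PP]
  have ez : ∀ r > 0, 0 * 0 + a * val 4 [1, -4 / 5] r = a * √r ^ 4 * (1 - 4 / 5 * √r) := by
    intro r hr
    simp only [val_eq hr, ev]
    push_cast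
    norm_num [zpow_ofNat]
    ring
  have eg : ∀ r > 0, val (-2) [2, 0, -299 / 100, 0, 0, 0, 1] r =
      (2 - 299 / 100 * √r ^ 2 + √r ^ 6) / √r ^ 2 := by
    intro r hr
    simp only [val_eq hr, ev]
    push_cast
    norm_num [zpow_ofNat, zpow_neg]
    ring
  refine cont (by omega) bz bg (fun r hr => ?_) ?_ ?_ (fun r hr => ?_) ?_ ?_ (fun r hr => ?_) hΛ hc
  · have x0 := Real.sqrt_pos.2 hr.1
    have x1 : √r ≤ 1 := by simpa using hr.2
    rw [ez r hr.1, val_eq hr.1]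
    generalize √r = x at *
    have : 0 < 1 - 4 / 5 * x := by linarith
    refine ⟨by positivity, ?_⟩
    norm_num [mp, ev, q2, q5, zpow_neg, zpow_ofNat]
    have e : a * x ^ 4 * (1 - 4 / 5 * x) * (a * ((x ^ 4)⁻¹ * (x * (4 / 5 * PP m (5 / 2))))) =
        a ^ 2 * PP m (5 / 2) * ((4 / 5 * x) * (1 - 4 / 5 * x)) := by field_simp
    rw [e, ha]
    nlinarith [sq_nonneg (4 / 5 * x - 1 / 2)]
  · norm_num [val_eq one_pos, mp, ev]
  · have c : Continuous fun r : ℝ => a * √r ^ 4 * (1 - 4 / 5 * √r) := by fun_prop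
    have := (c.tendsto 0).mono_left (nhdsWithin_le_nhds (s := Ioi 0))
    simp only [Real.sqrt_zero, ne_eq, OfNat.ofNat_ne_zero, not_false_eq_true, zero_pow,
      mul_zero, zero_mul] at this
    refine this.congr' ?_
    filter_upwards [self_mem_nhdsWithin] with r hr using (ez r hr).symm
  · have x0 := Real.sqrt_pos.2 hr.1
    have x1 : √r ≤ ((1 : ℚ) : ℝ) := by simpa using hr.2
    have x2 : ((0 : ℚ) : ℝ) ≤ √r := by simp
    have b1 := chk_ok (p := [2, 0, -299 / 100, 0, 0, 0, 1]) x1 [] 0 (by decide +kernel) x2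
    have b2 := chk_ok (p := padd (psm (372 / 100) (pmul [1, -4 / 5] [1, -4 / 5]))
      (psm (-1) [2, 0, -299 / 100, 0, 0, 0, 1])) x1 [1 / 2] 0 (by decide +kernel) x2
    rw [ez r hr.1, eg r hr.1, val_eq hr.1]
    generalize √r = x at *
    simp only [ev_padd, ev_psm, ev_pmul, ev] at b1 b2
    push_cast at b1 b2 x1
    have p1 : 0 < 1 - 4 / 5 * x := by linarith
    refine ⟨div_nonneg (by linarith) (by positivity), ?_⟩
    norm_num [mp, ev, q2, q0, q1, zpow_neg, zpow_ofNat]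
    have b3 := mul_le_mul_of_nonneg_right P1 (sq_nonneg (1 - 4 / 5 * x))
    rw [inv_mul_le_iff₀ (by positivity), div_le_iff₀ (by positivity)]
    have e : (a * x ^ 4 * (1 - 4 / 5 * x)) ^ 2 * ((x ^ 10)⁻¹ * (2 * PP m (-1))) * x ^ 2 =
        a ^ 2 * (2 * PP m (-1)) * (1 - 4 / 5 * x) ^ 2 := by field_simp
    rw [e]
    linarith
  · rw [eg 1 one_pos]
    norm_num
  · norm_num [val_eq one_pos, mp, ev]
  · have x0 := Real.sqrt_pos.2 hr.1
    have x1 : √r ≤ 1 := by simpa using hr.2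
    rw [eg r hr.1, ← Real.sq_sqrt hr.1.le, Real.sqrt_sq x0.le, ← div_eq_mul_inv]
    generalize √r = x at *
    refine div_le_div_of_nonneg_right ?_ (by positivity)
    have : x ^ 4 ≤ 1 := pow_le_one₀ x0.le x1
    nlinarith [mul_le_mul_of_nonneg_left this (sq_nonneg x)]

end Pool.Agent.MP_a8d80e_an.H53
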