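import Mathlib

set_option autoImplicit false

namespace Pool.Agent.MP_a8d80e_an.H53

open Metric Filter Topology

/-- `u` is a regular (classical) solution of the Dirichlet problem with parameter `lam` in the
unit ball of dimension `n`. -/
structure IsRegular (n : ℕ) (lam : ℝ) (u : EuclideanSpace ℝ (Fin n) → ℝ) : Prop where
  smooth : ContDiffOn ℝ 4 u (closedBall 0 1)
  eqn : ∀ x ∈ ball (0 : EuclideanSpace ℝ (Fin n)) 1,
    Laplacian.laplacian (Laplacian.laplacian u) x = lam / (1 - u x)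
  zero : ∀ x ∈ sphere (0 : EuclideanSpace ℝ (Fin n)) 1, u x = 0
  normal : ∀ x ∈ sphere (0 : EuclideanSpace ℝ (Fin n)) 1,
    fderivWithin ℝ u (closedBall 0 1) x x = 0
  nonneg : ∀ x ∈ ball (0 : EuclideanSpace ℝ (Fin n)) 1, 0 ≤ u x
  sup_lt : ∃ c < 1, ∀ x ∈ ball (0 : EuclideanSpace ℝ (Fin n)) 1, u x ≤ c

/-- the positive parameters for which a regular solution exists -/
def Params (n : ℕ) : Set ℝ := {lam | 0 < lam ∧ ∃ u, IsRegular n lam u}

/-- the extremal parameter -/
noncomputable def lamStar (n : ℕ) : ℝ := sSup (Params n)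

/-- `u` is a regular solution that lies below every regular solution -/
def IsMinimal (n : ℕ) (lam : ℝ) (u : EuclideanSpace ℝ (Fin n) → ℝ) : Prop :=
  IsRegular n lam u ∧
    ∀ w, IsRegular n lam w → ∀ x ∈ ball (0 : EuclideanSpace ℝ (Fin n)) 1, u x ≤ w x

/-- `v` is, in the ball, the pointwise limit of the minimal solutions as the parameter increases
to the extremal parameter -/
def IsExtremal (n : ℕ) (v : EuclideanSpace ℝ (Fin n) → ℝ) : Prop :=
  ∃ U : ℝ → EuclideanSpace ℝ (Fin n) → ℝ,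
    (∀ lam ∈ Set.Ioo 0 (lamStar n), IsMinimal n lam (U lam)) ∧
    ∀ x ∈ ball (0 : EuclideanSpace ℝ (Fin n)) 1,
      Tendsto (fun lam => U lam x) (𝓝[<] lamStar n) (𝓝 (v x))

end Pool.Agent.MP_a8d80e_an.H53
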