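import Pool.Agent.MP_a8d80e_an.H53.Rad

set_option autoImplicit false

namespace Pool.Agent.MP_a8d80e_an.H53

open Filter Topology Set intervalIntegral

noncomputable def J (m : ℕ) (G : ℝ → ℝ) : ℝ → ℝ :=
  fun s => ∫ σ in (0 : ℝ)..1, σ ^ m * G (s * σ ^ 2)

variable {m : ℕ} {F G H : ℝ → ℝ}

theorem J_cont (hG : Continuous G) : Continuous (J m G) :=
  continuous_parametric_intervalIntegral_of_continuous' (by fun_prop) _ _

theorem J_deriv (hG : ContDiff ℝ (1 : ℕ) G) (s : ℝ) :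
    HasDerivAt (J m G) (J (m + 2) (deriv G) s) s := by
  have c1 : Continuous (deriv G) := (cd_deriv hG).continuous
  have c0 := hG.continuous
  have d0 : Differentiable ℝ G := hG.differentiable (by simp)
  obtain ⟨C, hC⟩ := (isCompact_Icc (a := -(|s| + 1)) (b := |s| + 1)).exists_bound_of_continuousOn
    c1.continuousOn
  refine (hasDerivAt_integral_of_dominated_loc_of_deriv_le
    (F := fun s σ => σ ^ m * G (s * σ ^ 2)) (F' := fun s σ => σ ^ (m + 2) * deriv G (s * σ ^ 2))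
    (bound := fun _ => C) (Metric.ball_mem_nhds s one_pos)
    (Eventually.of_forall fun x => Continuous.aestronglyMeasurable (by fun_prop))
    (Continuous.intervalIntegrable (by fun_prop) _ _)
    (Continuous.aestronglyMeasurable (by fun_prop)) (Eventually.of_forall fun t ht x hx => ?_)
    intervalIntegrable_const (Eventually.of_forall fun t _ x _ => ?_)).2
  · rw [uIoc_of_le zero_le_one] at ht
    have h1 : |x| ≤ |s| + 1 := by
      have := abs_sub_abs_le_abs_sub x s
      rw [Metric.mem_ball, Real.dist_eq] at hx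
      linarith
    have h2 : |x * t ^ 2| ≤ |s| + 1 := by
      rw [abs_mul, abs_of_nonneg (sq_nonneg t)]
      exact (mul_le_of_le_one_right (abs_nonneg _) (pow_le_one₀ ht.1.le ht.2)).trans h1
    rw [norm_mul, Real.norm_of_nonneg (pow_nonneg ht.1.le _)]
    exact (mul_le_of_le_one_left (norm_nonneg _) (pow_le_one₀ ht.1.le ht.2)).trans
      (hC _ (abs_le.1 h2))
  · refine (((d0 _).hasDerivAt.comp x (hasDerivAt_mul_const (t ^ 2))).const_mul
      (t ^ m)).congr_deriv ?_
    ring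

theorem cd_succ {k : ℕ} (h : ∀ s, HasDerivAt F (G s) s) (hG : ContDiff ℝ k G) :
    ContDiff ℝ (k + 1 : ℕ) F := by
  have : ((k + 1 : ℕ) : WithTop ℕ∞) = (k : WithTop ℕ∞) + 1 := by simp
  rw [this, contDiff_succ_iff_deriv]
  refine ⟨fun s => (h s).differentiableAt, by simp, ?_⟩
  rwa [show deriv F = G from funext fun s => (h s).deriv]

theorem J_cd (k : ℕ) : ∀ {m : ℕ} {G : ℝ → ℝ}, ContDiff ℝ k G → ContDiff ℝ k (J m G) := by
  induction k with
  | zero => exact fun h => contDiff_zero.2 (J_cont h.continuous)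
  | succ k ih =>
    exact fun h => cd_succ (J_deriv (h.of_le (by exact_mod_cast Nat.le_add_left 1 k)))
      (ih (cd_deriv h))

theorem J_id (hG : ContDiff ℝ (1 : ℕ) G) (s : ℝ) :
    2 * s * J (m + 2) (deriv G) s + (m + 1) * J m G s = G s := by
  have c1 : Continuous (deriv G) := (cd_deriv hG).continuous
  have c0 := hG.continuous
  have d0 : Differentiable ℝ G := hG.differentiable (by simp)
  have := integral_eq_sub_of_hasDerivAt (a := 0) (b := 1) (f := fun σ => σ ^ (m + 1) * G (s * σ ^ 2))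
    (f' := fun σ => 2 * s * (σ ^ (m + 2) * deriv G (s * σ ^ 2)) + (m + 1) * (σ ^ m * G (s * σ ^ 2)))
    (fun σ _ => by
      refine ((hasDerivAt_pow (m + 1) σ).mul
        ((d0 _).hasDerivAt.comp σ ((hasDerivAt_pow 2 σ).const_mul s))).congr_deriv ?_
      simp only [Function.comp, Nat.add_sub_cancel]
      push_cast
      ring) (Continuous.intervalIntegrable (by fun_prop) _ _)
  rw [integral_add (Continuous.intervalIntegrable (by fun_prop) _ _)
    (Continuous.intervalIntegrable (by fun_prop) _ _), integral_const_mul, integral_const_mul] at this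
  simpa [J] using this

theorem J_bd (hG : Continuous G) (hH : Continuous H) {M : ℝ}
    (h : ∀ s ∈ Icc (0 : ℝ) 1, |G s - H s| ≤ M) : ∀ s ∈ Icc (0 : ℝ) 1, |J m G s - J m H s| ≤ M := by
  intro s hs
  unfold J
  rw [← integral_sub (Continuous.intervalIntegrable (by fun_prop) _ _)
    (Continuous.intervalIntegrable (by fun_prop) _ _)]
  have := norm_integral_le_of_norm_le_const (a := 0) (b := 1) (C := M)
    (f := fun σ : ℝ => σ ^ m * G (s * σ ^ 2) - σ ^ m * H (s * σ ^ 2)) fun t ht => by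
      rw [uIoc_of_le zero_le_one] at ht
      rw [← mul_sub, norm_mul, Real.norm_of_nonneg (pow_nonneg ht.1.le _)]
      exact (mul_le_of_le_one_left (norm_nonneg _) (pow_le_one₀ ht.1.le ht.2)).trans
        (h _ ⟨mul_nonneg hs.1 (sq_nonneg _), mul_le_one₀ hs.2 (sq_nonneg _)
          (pow_le_one₀ ht.1.le ht.2)⟩)
  simpa using this

/-- a radial solution of the Poisson equation -/
noncomputable def I (m : ℕ) (G : ℝ → ℝ) : ℝ → ℝ := fun s => ∫ x in (0 : ℝ)..s, J m G x / 2

theorem I_deriv (hG : Continuous G) (s : ℝ) : HasDerivAt (I m G) (J m G s / 2) s :=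
  (((J_cont hG).div_const 2).integral_hasStrictDerivAt 0 s).hasDerivAt

theorem I_cd {k : ℕ} (hG : ContDiff ℝ k G) : ContDiff ℝ (k + 1 : ℕ) (I m G) :=
  cd_succ (I_deriv hG.continuous) ((J_cd k hG).div_const 2)

theorem I_cont (hG : Continuous G) : Continuous (I m G) :=
  (I_cd (k := 0) (contDiff_zero.2 hG)).continuous

theorem A_I (hG : ContDiff ℝ (1 : ℕ) G) (a b s : ℝ) :
    A (m + 1) (fun s => I m G s + (a + b * s)) s = G s + 2 * (m + 1) * b := by
  have e : deriv (fun s => I m G s + (a + b * s)) = fun s => J m G s / 2 + b := by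
    ext s
    refine (((I_deriv hG.continuous s).add
      (((hasDerivAt_id s).const_mul b).const_add a)).congr_deriv ?_).deriv
    ring
  simp only [A, e, (((J_deriv hG s).div_const 2).add_const b).deriv]
  push_cast
  linear_combination J_id hG s

theorem I_bd (hG : Continuous G) (hH : Continuous H) {M : ℝ}
    (h : ∀ s ∈ Icc (0 : ℝ) 1, |G s - H s| ≤ M) : ∀ s ∈ Icc (0 : ℝ) 1, |I m G s - I m H s| ≤ M := by
  intro s hs
  have c1 := J_cont (m := m) hG
  have c2 := J_cont (m := m) hH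
  have M0 : 0 ≤ M := (abs_nonneg _).trans (h s hs)
  unfold I
  rw [← integral_sub (Continuous.intervalIntegrable (by fun_prop) _ _)
    (Continuous.intervalIntegrable (by fun_prop) _ _)]
  have := norm_integral_le_of_norm_le_const (a := 0) (b := s) (C := M)
    (f := fun x : ℝ => J m G x / 2 - J m H x / 2) fun t ht => by
      rw [uIoc_of_le hs.1] at ht
      have := J_bd (m := m) hG hH h t ⟨ht.1.le, ht.2.trans hs.2⟩
      rw [← sub_div, Real.norm_eq_abs, abs_div, abs_two]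
      linarith
  rw [sub_zero, abs_of_nonneg hs.1] at this
  exact this.trans (mul_le_of_le_one_right M0 hs.2)

/-- the radial solution of the clamped plate problem -/
noncomputable def K (m : ℕ) (G : ℝ → ℝ) : ℝ → ℝ := fun s =>
  I m (I m G) s + (J m (I m G) 1 / 2 - I m (I m G) 1 + -(J m (I m G) 1 / 2) * s)

theorem K_cd {k : ℕ} (hG : ContDiff ℝ k G) : ContDiff ℝ (k + 2 : ℕ) (K m G) :=
  (I_cd (I_cd hG)).add (by fun_prop)

theorem K_one : K m G 1 = 0 := by
  simp only [K]
  ring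

theorem K_deriv (hG : Continuous G) : deriv (K m G) 1 = 0 := by
  refine (((I_deriv (I_cont hG) 1).add
    (((hasDerivAt_id 1).const_mul _).const_add _)).congr_deriv ?_).deriv
  ring

theorem K_eq (hG : ContDiff ℝ (1 : ℕ) G) (s : ℝ) : A (m + 1) (A (m + 1) (K m G)) s = G s := by
  have e : A (m + 1) (K m G) = fun s => I m G s + (2 * (m + 1) * -(J m (I m G) 1 / 2) + 0 * s) := by
    ext s
    rw [zero_mul, add_zero]
    exact A_I ((I_cd hG).of_le (by norm_cast)) _ _ s
  rw [e, A_I hG]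
  ring

theorem K_bd (hG : Continuous G) (hH : Continuous H) {M : ℝ}
    (h : ∀ s ∈ Icc (0 : ℝ) 1, |G s - H s| ≤ M) :
    ∀ s ∈ Icc (0 : ℝ) 1, |K m G s - K m H s| ≤ 3 * M := by
  intro s hs
  have h1 := I_bd (m := m) hG hH h
  have h2 := I_bd (m := m) (I_cont hG) (I_cont hH) h1
  have h3 := abs_le.1 (J_bd (m := m) (I_cont hG) (I_cont hH) h1 1 (by simp))
  have h4 := abs_le.1 (h2 s hs)
  have h5 := abs_le.1 (h2 1 (by simp))
  simp only [K]
  rw [abs_le]
  constructor <;> nlinarith [hs.1, hs.2]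

/-- a smooth function that agrees with `1 / (1 - y)` below `c` -/
noncomputable def chi (c y : ℝ) : ℝ := (1 - y) / ((1 - y) ^ 2 + expNegInvGlue (y - c))

theorem chi_cd {c : ℝ} (hc : c < 1) {k : ℕ} : ContDiff ℝ k (chi c) := by
  refine ContDiff.div (by fun_prop) (ContDiff.add (by fun_prop)
    (expNegInvGlue.contDiff.comp (by fun_prop))) fun y => ?_
  by_cases h : y = 1
  · simpa [h] using not_le.2 hc
  · have := expNegInvGlue.nonneg (y - c)
    have := pow_pos (abs_pos.2 (sub_ne_zero.2 (Ne.symm h))) 2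
    rw [sq_abs] at this
    positivity

theorem chi_eq {c y : ℝ} (hc : c < 1) (hy : y ≤ c) : chi c y = 1 / (1 - y) := by
  have : 1 - y ≠ 0 := by linarith
  rw [chi, expNegInvGlue.zero_of_nonpos (by linarith)]
  field_simp
  ring

/-- `G` solves the linear problem with the right side built from `F` -/
structure Step (m : ℕ) (lam : ℝ) (F G : ℝ → ℝ) : Prop where
  cd : ContDiff ℝ (4 : ℕ) G
  eqn : ∀ s ∈ Icc (0 : ℝ) 1, A (m + 1) (A (m + 1) G) s = lam / (1 - F s)
  one : G 1 = 0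
  der : deriv G 1 = 0
  lt : ∀ s ∈ Icc (0 : ℝ) 1, F s < 1

theorem sq_mem {r : ℝ} (hr : r ∈ Ioc (0 : ℝ) 1) : r ^ 2 ∈ Icc (0 : ℝ) 1 :=
  ⟨sq_nonneg _, pow_le_one₀ hr.1.le hr.2⟩

/-- from radii to squared radii -/
theorem le_of_sq (hF : Continuous F) (hG : Continuous G)
    (h : ∀ r ∈ Ioc (0 : ℝ) 1, F (r ^ 2) ≤ G (r ^ 2)) : ∀ s ∈ Icc (0 : ℝ) 1, F s ≤ G s := by
  have : Ioc (0 : ℝ) 1 ⊆ {s | F s ≤ G s} := fun s hs => by
    have := h (√s) ⟨Real.sqrt_pos.2 hs.1, Real.sqrt_le_one.2 hs.2⟩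
    rwa [Real.sq_sqrt hs.1.le] at this
  have h2 := closure_minimal this (isClosed_le hF hG)
  rwa [closure_Ioc zero_ne_one] at h2

variable {lam lam' : ℝ} {F' G' : ℝ → ℝ}

theorem Step.diff (p : Step m lam F G) (q : Step m lam' F' G') (h0 : 0 ≤ lam) (h1 : lam ≤ lam')
    (h : ∀ s ∈ Icc (0 : ℝ) 1, F s ≤ F' s) :
    ∀ s ∈ Icc (0 : ℝ) 1, 0 ≤ G' s - G s ∧ G' s - G s ≤ G' 0 - G 0 := by
  have b := (Bi.sq (m := m) q.cd).lin 1 (-1) (Bi.sq p.cd)
  have key : ∀ a c : ℝ, 0 < a → a ≤ c → c ≤ 1 →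
      G' (c ^ 2) - G (c ^ 2) ≤ G' (a ^ 2) - G (a ^ 2) := by
    intro a c ha hac hc
    have := b.anti (R := 1) (fun r hr => by
      have hs := sq_mem hr
      have : lam / (1 - F (r ^ 2)) ≤ lam' / (1 - F' (r ^ 2)) :=
        div_le_div₀ (h0.trans h1) h1 (sub_pos.2 (q.lt _ hs)) (by linarith [h _ hs])
      rw [p.eqn _ hs, q.eqn _ hs]
      linarith) (by simp [p.der, q.der]) ha hac hc
    linarith
  have c := q.cd.continuous.sub p.cd.continuous
  intro s hs
  refine ⟨le_of_sq continuous_const c (fun r hr => ?_) s hs, le_of_sq c continuous_const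
    (fun r hr => ?_) s hs⟩
  · simpa [p.one, q.one] using key r 1 hr.1 hr.2 le_rfl
  · have t : Tendsto (fun a : ℝ => G' (a ^ 2) - G (a ^ 2)) (𝓝[>] 0) (𝓝 (G' 0 - G 0)) := by
      simpa [Function.comp_def] using ((c.comp (continuous_pow 2)).tendsto 0).mono_left
        (nhdsWithin_le_nhds (s := Ioi 0))
    refine ge_of_tendsto t ?_
    filter_upwards [Ioc_mem_nhdsGT hr.1] with a ha using key a r ha.1 ha.2 hr.2

theorem Step.zero : Step m 0 (fun _ => 0) fun _ => 0 :=
  ⟨contDiff_const, by simp [A, show A (m + 1) (fun _ => 0) = fun _ => 0 from by ext; simp [A]],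
    rfl, by simp, by simp⟩

/-- a radial solution that is the limit of the monotone iteration -/
def Lim (m : ℕ) (lam : ℝ) (F : ℝ → ℝ) : Prop :=
  Step m lam F F ∧ ∃ u : ℕ → ℝ → ℝ, u 0 = (fun _ => 0) ∧ (∀ k, Step m lam (u k) (u (k + 1))) ∧
    ∀ s ∈ Icc (0 : ℝ) 1, Tendsto (fun k => u k s) atTop (𝓝 (F s))

theorem exists_lim (h0 : 0 ≤ lam) {c : ℝ} (hc : c < 1) (Q : (ℝ → ℝ) → Prop) (Q0 : Q fun _ => 0)
    (Qs : ∀ F G, Q F → (∀ s ∈ Icc (0 : ℝ) 1, 0 ≤ F s) → Step m lam F G → Q G)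
    (Qc : ∀ F, Q F → ∀ s ∈ Icc (0 : ℝ) 1, F s ≤ c) : ∃ F, Lim m lam F := by
  have mk : ∀ F : ℝ → ℝ, ContDiff ℝ (2 : ℕ) F → (∀ s ∈ Icc (0 : ℝ) 1, F s ≤ c) →
      Step m lam F (K m fun s => lam * chi c (F s)) := by
    intro F hF hle
    have g : ContDiff ℝ (2 : ℕ) fun s => lam * chi c (F s) :=
      contDiff_const.mul ((chi_cd hc).comp hF)
    exact ⟨K_cd g, fun s hs => by
      rw [K_eq (g.of_le (by norm_cast)), chi_eq hc (hle s hs)]; ring, K_one,
      K_deriv g.continuous, fun s hs => (hle s hs).trans_lt hc⟩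
  let u : ℕ → ℝ → ℝ := fun k => Nat.rec (fun _ => 0) (fun _ F => K m fun s => lam * chi c (F s)) k
  have hu : ∀ k, Q (u k) ∧ (∀ s ∈ Icc (0 : ℝ) 1, 0 ≤ u k s) ∧ ContDiff ℝ (2 : ℕ) (u k) := by
    intro k
    induction k with
    | zero => exact ⟨Q0, fun _ _ => le_rfl, contDiff_const⟩
    | succ k ih =>
      have st := mk _ ih.2.2 (Qc _ ih.1)
      exact ⟨Qs _ _ ih.1 ih.2.1 st,
        fun s hs => by simpa using (Step.zero.diff st le_rfl h0 ih.2.1 s hs).1,
        st.cd.of_le (by norm_cast)⟩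
  have st : ∀ k, Step m lam (u k) (u (k + 1)) := fun k => mk _ (hu k).2.2 (Qc _ (hu k).1)
  have le : ∀ k, ∀ s ∈ Icc (0 : ℝ) 1, u k s ≤ c := fun k => Qc _ (hu k).1
  have m1 : ∀ k, ∀ s ∈ Icc (0 : ℝ) 1, u k s ≤ u (k + 1) s := by
    intro k
    induction k with
    | zero => exact (hu 1).2.1
    | succ k ih => exact fun s hs => sub_nonneg.1 ((st k).diff (st (k + 1)) h0 le_rfl ih s hs).1
  have m2 : ∀ s ∈ Icc (0 : ℝ) 1, Monotone fun k => u k s := fun s hs =>
    monotone_nat_of_le_succ fun k => m1 k s hs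
  let cl : ℝ → ℝ := fun s => max 0 (min s 1)
  have cl1 : ∀ s, cl s ∈ Icc (0 : ℝ) 1 := fun s => ⟨le_max_left _ _, by simp [cl]⟩
  have cl2 : ∀ s ∈ Icc (0 : ℝ) 1, cl s = s := fun s hs => by simp [cl, hs.1, hs.2]
  let V : ℝ → ℝ := fun s => ⨆ k, u k (cl s)
  have bd : ∀ s ∈ Icc (0 : ℝ) 1, BddAbove (range fun k => u k s) := fun s hs =>
    ⟨c, by rintro _ ⟨k, rfl⟩; exact le k s hs⟩
  have tV : ∀ s, Tendsto (fun k => u k (cl s)) atTop (𝓝 (V s)) := fun s =>
    tendsto_atTop_ciSup (m2 _ (cl1 s)) (bd _ (cl1 s))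
  have z : cl 0 = 0 := cl2 0 (by simp)
  have Vc : ∀ s, V s ≤ c := fun s => ciSup_le fun k => le k _ (cl1 s)
  have gap : ∀ k s, 0 ≤ V s - u (k + 1) (cl s) ∧ V s - u (k + 1) (cl s) ≤ V 0 - u (k + 1) 0 := by
    intro k s
    refine ⟨sub_nonneg.2 (le_ciSup (bd _ (cl1 s)) (k + 1)), ?_⟩
    refine le_of_tendsto (((tV s).comp (tendsto_add_atTop_nat 1)).sub_const _) ?_
    filter_upwards [eventually_ge_atTop k] with j hj
    have a1 := ((st k).diff (st j) h0 le_rfl (fun s hs => m2 s hs hj) _ (cl1 s)).2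
    have a2 : u (j + 1) (cl 0) ≤ V 0 := le_ciSup (bd _ (cl1 0)) (j + 1)
    rw [z] at a2
    simp only [Function.comp]
    linarith
  have t0 : Tendsto (fun k => V 0 - u (k + 1) 0) atTop (𝓝 0) := by
    have := ((tV 0).comp (tendsto_add_atTop_nat 1)).const_sub (V 0)
    simpa [z, Function.comp_def] using this
  have Vcont : Continuous V := by
    refine TendstoUniformly.continuous (F := fun k s => u (k + 1) (cl s)) (p := atTop) ?_
      (Frequently.of_forall fun k => (hu (k + 1)).2.2.continuous.comp (by fun_prop))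
    rw [Metric.tendstoUniformly_iff]
    intro ε hε
    filter_upwards [t0.eventually (gt_mem_nhds hε)] with k hk s
    rw [Real.dist_eq, abs_of_nonneg (gap k s).1]
    exact (gap k s).2.trans_lt hk
  have cc : ∀ F : ℝ → ℝ, Continuous F → Continuous fun s => lam * chi c (F s) := fun F hF =>
    continuous_const.mul ((chi_cd (k := 0) hc).continuous.comp hF)
  have cV := cc V Vcont
  let H := K m fun s => lam * chi c (V s)
  have HV : ∀ s ∈ Icc (0 : ℝ) 1, H s = V s := by
    intro s hs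
    have t1 : Tendsto (fun k => u (k + 2) s) atTop (𝓝 (V s)) := by
      simpa [cl2 s hs, Function.comp_def] using (tV s).comp (tendsto_add_atTop_nat 2)
    refine tendsto_nhds_unique ?_ t1
    rw [tendsto_iff_norm_sub_tendsto_zero]
    refine squeeze_zero (fun _ => norm_nonneg _) (fun k => ?_)
      (by simpa using (t0.const_mul (lam / (1 - c) ^ 2)).const_mul 3)
    refine K_bd (cc _ (hu (k + 1)).2.2.continuous) cV (fun x hx => ?_) s hs
    obtain ⟨g1, g2⟩ := gap k x
    rw [cl2 x hx] at g1 g2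
    have p0 : 0 < 1 - c := sub_pos.2 hc
    have p1 : 1 - c ≤ 1 - V x := by linarith [Vc x]
    have p2 : 1 - c ≤ 1 - u (k + 1) x := by linarith [le (k + 1) x hx]
    have p3 := p0.trans_le p1
    have p4 := p0.trans_le p2
    have e : lam * (1 / (1 - u (k + 1) x)) - lam * (1 / (1 - V x)) =
        -(lam / ((1 - V x) * (1 - u (k + 1) x)) * (V x - u (k + 1) x)) := by
      field_simp
      ring
    rw [chi_eq hc (le (k + 1) x hx), chi_eq hc (Vc x), e, abs_neg, abs_of_nonneg (by positivity)]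
    refine mul_le_mul ?_ g2 g1 (by positivity)
    exact div_le_div_of_nonneg_left h0 (by positivity) (by nlinarith)
  have Hcd : ContDiff ℝ (2 : ℕ) H := K_cd (k := 0) (contDiff_zero.2 cV)
  have s1 := mk H Hcd fun s hs => HV s hs ▸ Vc s
  have e : ∀ s ∈ Icc (0 : ℝ) 1, K m (fun s => lam * chi c (H s)) s = H s := by
    intro s hs
    have := K_bd (m := m) (M := 0) (cc _ Hcd.continuous) cV (fun x hx => by simp [HV x hx]) s hs
    simpa [sub_eq_zero] using this
  refine ⟨_, ⟨s1.cd, fun s hs => by rw [e s hs, s1.eqn s hs], s1.one, s1.der,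
    fun s hs => by rw [e s hs]; exact s1.lt s hs⟩, u, rfl, st, fun s hs => ?_⟩
  rw [e s hs, HV s hs]
  simpa [cl2 s hs] using tV s

end Pool.Agent.MP_a8d80e_an.H53
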