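import Pool.Agent.MP_a8d80e_an.H53.Defs

set_option autoImplicit false

namespace Pool.Agent.MP_a8d80e_an.H53

open Metric Filter Topology

abbrev E (n : ℕ) := EuclideanSpace ℝ (Fin n)

variable {n : ℕ}

/-- the coordinate vectors -/
noncomputable def ee (i : Fin n) : E n := EuclideanSpace.single i 1

/-- the derivative along a coordinate -/
noncomputable def D (i : Fin n) (f : E n → ℝ) : E n → ℝ := fun x => fderiv ℝ f x (ee i)

/-- the sum of the second derivatives -/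
noncomputable def L (f : E n → ℝ) : E n → ℝ := fun x => ∑ i, D i (D i f) x

/-- the radial derivative -/
noncomputable def R (f : E n → ℝ) : E n → ℝ := fun x => fderiv ℝ f x x

/-- smooth of order `k` in the open ball -/
def Sm (k : ℕ) (f : E n → ℝ) : Prop := ∀ x ∈ ball (0 : E n) 1, ContDiffAt ℝ k f x

/-- equal in the open ball -/
def Eb (f g : E n → ℝ) : Prop := ∀ x ∈ ball (0 : E n) 1, f x = g x

theorem Eb.ev {f g : E n → ℝ} (h : Eb f g) {x : E n} (hx : x ∈ ball (0 : E n) 1) :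
    f =ᶠ[𝓝 x] g := by
  filter_upwards [isOpen_ball.mem_nhds hx] with y hy using h y hy

theorem Eb.D {f g : E n → ℝ} (h : Eb f g) (i : Fin n) : Eb (D i f) (D i g) := fun x hx => by
  simp only [H53.D, (h.ev hx).fderiv_eq]

theorem Eb.L {f g : E n → ℝ} (h : Eb f g) : Eb (L f) (L g) := fun x hx =>
  Finset.sum_congr rfl fun i _ => (h.D i).D i x hx

theorem Eb.trans {f g h : E n → ℝ} (h1 : Eb f g) (h2 : Eb g h) : Eb f h := fun x hx =>
  (h1 x hx).trans (h2 x hx)

theorem Sm.mono {k l : ℕ} {f : E n → ℝ} (h : Sm k f) (hl : l ≤ k) : Sm l f := fun x hx =>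
  (h x hx).of_le (by exact_mod_cast hl)

theorem Sm.congr {k : ℕ} {f g : E n → ℝ} (h : Sm k f) (e : Eb g f) : Sm k g := fun x hx =>
  (h x hx).congr_of_eventuallyEq (e.ev hx)

theorem Sm.diff {k : ℕ} {f : E n → ℝ} (h : Sm (k + 1) f) {x : E n} (hx : x ∈ ball (0 : E n) 1) :
    DifferentiableAt ℝ f x := (h x hx).differentiableAt (by simp)

theorem Sm.fd {k : ℕ} {f : E n → ℝ} (h : Sm (k + 1) f) {x : E n} (hx : x ∈ ball (0 : E n) 1) :
    ContDiffAt ℝ k (fderiv ℝ f) x := (h x hx).fderiv_right (by simp)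

theorem Sm.D {k : ℕ} {f : E n → ℝ} (h : Sm (k + 1) f) (i : Fin n) : Sm k (D i f) := fun _ hx =>
  (h.fd hx).clm_apply contDiffAt_const

theorem Sm.R {k : ℕ} {f : E n → ℝ} (h : Sm (k + 1) f) : Sm k (R f) := fun _ hx =>
  (h.fd hx).clm_apply contDiffAt_id

theorem Sm.L {k : ℕ} {f : E n → ℝ} (h : Sm (k + 2) f) : Sm k (L f) := fun x hx =>
  ContDiffAt.sum fun i _ => (h.D i).D i x hx

theorem Sm.add {k : ℕ} {f g : E n → ℝ} (h : Sm k f) (h' : Sm k g) :
    Sm k fun x => f x + g x := fun x hx => (h x hx).add (h' x hx)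

theorem Sm.mul {k : ℕ} {f g : E n → ℝ} (h : Sm k f) (h' : Sm k g) :
    Sm k fun x => f x * g x := fun x hx => (h x hx).mul (h' x hx)

theorem Sm.const {k : ℕ} (c : ℝ) : Sm k fun _ : E n => c := fun _ _ => contDiffAt_const

theorem Sm.coord {k : ℕ} (i : Fin n) : Sm k fun x : E n => x i := fun _ _ =>
  (EuclideanSpace.proj (𝕜 := ℝ) i).contDiff.contDiffAt

theorem Sm.rad {k : ℕ} {F : ℝ → ℝ} (h : ContDiff ℝ k F) : Sm k fun x : E n => F (‖x‖ ^ 2) :=
  fun _ _ => (h.comp (contDiff_norm_sq ℝ)).contDiffAt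

theorem fd_D {f : E n → ℝ} (h : Sm 2 f) {x : E n} (hx : x ∈ ball (0 : E n) 1) (i : Fin n)
    (v : E n) : fderiv ℝ (D i f) x v = fderiv ℝ (fderiv ℝ f) x v (ee i) := by
  have h1 : DifferentiableAt ℝ (fderiv ℝ f) x := (h.fd hx).differentiableAt (by simp)
  unfold D
  rw [fderiv_clm_apply h1 (differentiableAt_const _)]
  simp

theorem lap_eq {f : E n → ℝ} (h : Sm 2 f) : Eb (Laplacian.laplacian f) (L f) := by
  intro x hx
  rw [InnerProductSpace.laplacian_eq_iteratedFDeriv_orthonormalBasis f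
    (EuclideanSpace.basisFun (Fin n) ℝ)]
  refine Finset.sum_congr rfl fun i _ => ?_
  rw [iteratedFDeriv_two_apply]
  change _ = fderiv ℝ (D i f) x (ee i)
  rw [fd_D h hx]
  simp [ee]

theorem bilap_eq {f : E n → ℝ} (h : Sm 4 f) :
    Eb (Laplacian.laplacian (Laplacian.laplacian f)) (L (L f)) :=
  have h1 := lap_eq (h.mono (by norm_num))
  (lap_eq ((Sm.L (k := 2) h).congr h1)).trans h1.L

theorem D_add {f g : E n → ℝ} (hf : Sm 1 f) (hg : Sm 1 g) (i : Fin n) :
    Eb (D i fun x => f x + g x) fun x => D i f x + D i g x := fun x hx => by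
  simp only [D]
  rw [fderiv_fun_add (hf.diff hx) (hg.diff hx)]
  simp

theorem D_mul {f g : E n → ℝ} (hf : Sm 1 f) (hg : Sm 1 g) (i : Fin n) :
    Eb (D i fun x => f x * g x) fun x => f x * D i g x + D i f x * g x := fun x hx => by
  simp only [D]
  rw [fderiv_fun_mul (hf.diff hx) (hg.diff hx)]
  simp [mul_comm]

theorem D_cmul {f : E n → ℝ} (hf : Sm 1 f) (c : ℝ) (i : Fin n) :
    Eb (D i fun x => c * f x) fun x => c * D i f x := fun x hx => by
  rw [D_mul (Sm.const c) hf i x hx]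
  simp [D]

theorem D_coord (i : Fin n) (x : E n) : D i (fun x : E n => x i) x = 1 := by
  have : (fun x : E n => x i) = EuclideanSpace.proj (𝕜 := ℝ) i := rfl
  simp only [D]
  rw [this, ContinuousLinearMap.fderiv]
  simp [ee]

theorem fd_rad {F : ℝ → ℝ} (h : Differentiable ℝ F) (x v : E n) :
    fderiv ℝ (fun x : E n => F (‖x‖ ^ 2)) x v = deriv F (‖x‖ ^ 2) * (2 * inner ℝ x v) := by
  have h1 := ((h (‖x‖ ^ 2)).hasDerivAt.comp_hasFDerivAt x
    (hasStrictFDerivAt_norm_sq x).hasFDerivAt).fderiv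
  change fderiv ℝ (F ∘ fun x : E n => ‖x‖ ^ 2) x v = _
  rw [h1]
  simp

theorem D_rad {F : ℝ → ℝ} (h : Differentiable ℝ F) (i : Fin n) :
    D i (fun x : E n => F (‖x‖ ^ 2)) = fun x => x i * (2 * deriv F (‖x‖ ^ 2)) := by
  ext x
  simp only [D, fd_rad h, ee, EuclideanSpace.inner_single_right]
  simp
  ring

theorem R_rad {F : ℝ → ℝ} (h : Differentiable ℝ F) (x : E n) :
    R (fun x : E n => F (‖x‖ ^ 2)) x = 2 * ‖x‖ ^ 2 * deriv F (‖x‖ ^ 2) := by
  simp only [R, fd_rad h, real_inner_self_eq_norm_sq]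
  ring

theorem R_eq (f : E n → ℝ) (x : E n) : R f x = ∑ i, x i * D i f x := by
  have : x = ∑ i, x i • ee i := by
    simpa [ee] using ((EuclideanSpace.basisFun (Fin n) ℝ).sum_repr x).symm
  simp only [R, D]
  nth_rewrite 2 [this]
  simp

theorem sum_sq (x : E n) : ∑ i, x i * x i = ‖x‖ ^ 2 := by
  rw [EuclideanSpace.norm_sq_eq]
  simp [sq]

/-- the radial form of the Laplacian, in the variable `s = r ^ 2` -/
noncomputable def A (n : ℕ) (F : ℝ → ℝ) : ℝ → ℝ :=
  fun s => 4 * s * deriv (deriv F) s + 2 * n * deriv F s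

theorem cd_deriv {k : ℕ} {F : ℝ → ℝ} (h : ContDiff ℝ (k + 1 : ℕ) F) : ContDiff ℝ k (deriv F) := by
  have : ((k + 1 : ℕ) : WithTop ℕ∞) = (k : WithTop ℕ∞) + 1 := by simp
  rw [this] at h
  exact (contDiff_succ_iff_deriv.1 h).2.2

theorem cd_A {k : ℕ} {F : ℝ → ℝ} (h : ContDiff ℝ (k + 2 : ℕ) F) : ContDiff ℝ k (A n F) := by
  have h1 := cd_deriv h
  have h2 := cd_deriv h1
  have h3 : ContDiff ℝ k (deriv F) := h1.of_le (by exact_mod_cast Nat.le_succ k)
  unfold A
  fun_prop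

theorem L_mul_rad {F : ℝ → ℝ} (h : ContDiff ℝ (2 : ℕ) F) {g : E n → ℝ} (hg : Sm 2 g) :
    Eb (L fun x => F (‖x‖ ^ 2) * g x) fun x => F (‖x‖ ^ 2) * L g x +
      4 * deriv F (‖x‖ ^ 2) * R g x + A n F (‖x‖ ^ 2) * g x := by
  intro x hx
  have h1 := cd_deriv h
  have d0 : Differentiable ℝ F := h.differentiable (by simp)
  have d1 : Differentiable ℝ (deriv F) := h1.differentiable (by simp)
  have s0 : Sm 1 fun x : E n => F (‖x‖ ^ 2) := (Sm.rad h).mono (by norm_num)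
  have s1 : Sm 1 fun x : E n => deriv F (‖x‖ ^ 2) := Sm.rad h1
  have g1 := hg.mono (l := 1) (by norm_num)
  have key : ∀ i, D i (D i fun x => F (‖x‖ ^ 2) * g x) x = F (‖x‖ ^ 2) * D i (D i g) x +
      4 * deriv F (‖x‖ ^ 2) * (x i * D i g x) + (4 * deriv (deriv F) (‖x‖ ^ 2) * g x) * (x i * x i)
      + 2 * deriv F (‖x‖ ^ 2) * g x := by
    intro i
    have s2 : Sm 1 fun x : E n => x i * (2 * deriv F (‖x‖ ^ 2)) :=
      (Sm.coord i).mul ((Sm.const 2).mul s1)
    rw [(D_mul s0 g1 i).D i x hx, D_rad d0, D_add (s0.mul (hg.D i)) (s2.mul g1) i x hx]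
    beta_reduce
    rw [D_mul s0 (hg.D i) i x hx, D_mul s2 g1 i x hx]
    beta_reduce
    rw [D_mul (Sm.coord i) ((Sm.const 2).mul s1) i x hx]
    beta_reduce
    rw [D_cmul s1 2 i x hx, D_coord, D_rad d0, D_rad d1]
    ring
  simp only [L, key, Finset.sum_add_distrib, ← Finset.mul_sum, ← R_eq, sum_sq, A]
  simp
  ring

theorem L_rad {F : ℝ → ℝ} (h : ContDiff ℝ (2 : ℕ) F) :
    Eb (L fun x : E n => F (‖x‖ ^ 2)) fun x => A n F (‖x‖ ^ 2) := by
  intro x hx
  have := L_mul_rad h (Sm.const (n := n) 1) x hx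
  have e : ∀ i : Fin n, D i (fun _ : E n => (1 : ℝ)) = fun _ => 0 := fun i => by
    ext y; simp [D]
  simpa [L, R, e, D] using this

theorem L_add {f g : E n → ℝ} (hf : Sm 2 f) (hg : Sm 2 g) :
    Eb (L fun x => f x + g x) fun x => L f x + L g x := fun x hx => by
  simp only [L, ← Finset.sum_add_distrib]
  refine Finset.sum_congr rfl fun i _ => ?_
  rw [(D_add (hf.mono (by norm_num)) (hg.mono (by norm_num)) i).D i x hx,
    D_add (hf.D i) (hg.D i) i x hx]

theorem L_cmul {f : E n → ℝ} (hf : Sm 2 f) (c : ℝ) :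
    Eb (L fun x => c * f x) fun x => c * L f x := fun x hx => by
  simp only [L, Finset.mul_sum]
  refine Finset.sum_congr rfl fun i _ => ?_
  rw [(D_cmul (hf.mono (by norm_num)) c i).D i x hx, D_cmul (hf.D i) c i x hx]

theorem D_R {f : E n → ℝ} (h : Sm 2 f) (i : Fin n) :
    Eb (D i (R f)) fun x => D i f x + R (D i f) x := by
  intro x hx
  have h1 : DifferentiableAt ℝ (fderiv ℝ f) x := (h.fd hx).differentiableAt (by simp)
  have h2 := ((h x hx).isSymmSndFDerivAt (by simp)).eq x (ee i)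
  change fderiv ℝ (fun x => fderiv ℝ f x x) x (ee i) =
    fderiv ℝ f x (ee i) + fderiv ℝ (D i f) x x
  rw [fd_D h hx, h2, fderiv_clm_apply h1 differentiableAt_fun_id]
  simp

theorem L_R {f : E n → ℝ} (h : Sm 3 f) : Eb (L (R f)) fun x => 2 * L f x + R (L f) x := by
  intro x hx
  have key : ∀ i, D i (D i (R f)) x = 2 * D i (D i f) x + R (D i (D i f)) x := by
    intro i
    rw [(D_R (h.mono (by norm_num)) i).D i x hx,
      D_add ((h.D i).mono (by norm_num)) (h.D i).R i x hx]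
    beta_reduce
    rw [D_R (h.D i) i x hx]
    ring
  have e : R (L f) x = ∑ i, R (D i (D i f)) x := by
    simp only [R]
    unfold L
    rw [fderiv_fun_sum fun i _ => ((h.D i).D i).diff hx]
    simp
  simp only [L, key, Finset.sum_add_distrib, ← Finset.mul_sum] at e ⊢
  rw [e]

/-- at an interior minimum the gradient vanishes and the Laplacian is nonnegative -/
theorem at_min {f : E n → ℝ} (h : Sm 2 f) {x : E n} (hx : x ∈ ball (0 : E n) 1)
    (hm : IsLocalMin f x) : R f x = 0 ∧ 0 ≤ L f x := by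
  refine ⟨by simp [R, hm.fderiv_eq_zero], Finset.sum_nonneg fun i _ => ?_⟩
  by_contra hneg
  push Not at hneg
  let γ : ℝ → E n := fun t => x + t • ee i
  have hγ : ∀ t, HasDerivAt γ (ee i) t := fun t => by
    have := ((hasDerivAt_id t).smul_const (ee i)).const_add x
    rwa [one_smul] at this
  have γ0 : γ 0 = x := by simp [γ]
  have hc : Tendsto γ (𝓝 0) (𝓝 x) := γ0 ▸ (hγ 0).continuousAt.tendsto
  have hb : ∀ᶠ t in 𝓝 (0 : ℝ), γ t ∈ ball (0 : E n) 1 := hc (isOpen_ball.mem_nhds hx)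
  have d1 : deriv (f ∘ γ) =ᶠ[𝓝 0] (D i f ∘ γ) := by
    filter_upwards [hb] with t ht
    exact ((h.diff ht).hasFDerivAt.comp_hasDerivAt t (hγ t)).deriv
  have d2 : deriv (deriv (f ∘ γ)) 0 = D i (D i f) x := by
    rw [d1.deriv_eq]
    have := ((h.D i).diff (γ0 ▸ hx : γ 0 ∈ _)).hasFDerivAt.comp_hasDerivAt 0 (hγ 0)
    rw [this.deriv, γ0]
    rfl
  have m1 : IsLocalMin (f ∘ γ) 0 := IsLocalMin.comp_continuous (γ0 ▸ hm) (hγ 0).continuousAt
  have m2 : IsLocalMax (f ∘ γ) 0 := isLocalMax_of_deriv_deriv_neg (d2 ▸ hneg) m1.deriv_eq_zero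
    (ContinuousAt.comp (γ0 ▸ (h.diff hx).continuousAt) (hγ 0).continuousAt)
  have e : (f ∘ γ) =ᶠ[𝓝 0] fun _ => (f ∘ γ) 0 := by
    filter_upwards [m1, m2] with t h1 h2 using le_antisymm h2 h1
  have := e.deriv.deriv_eq
  rw [d2] at this
  simp at this
  exact hneg.ne this

end Pool.Agent.MP_a8d80e_an.H53
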