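import Pool.Agent.MP_a8d80e_an.H53.Cert
import Pool.Agent.MP_a8d80e_an.H53.Boggio

set_option autoImplicit false

namespace Pool.Agent.MP_a8d80e_an.H53

open Filter Topology Set Metric

variable {m : ℕ} {lam lam' : ℝ} {F G : ℝ → ℝ} {w : E (m + 1) → ℝ}

theorem nsq_mem {x : E (m + 1)} (hx : x ∈ ball (0 : E (m + 1)) 1) : ‖x‖ ^ 2 ∈ Icc (0 : ℝ) 1 :=
  ⟨sq_nonneg _, pow_le_one₀ (norm_nonneg _) (mem_ball_zero_iff.1 hx).le⟩

theorem Step.smooth (p : Step m lam F G) :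
    ContDiff ℝ (4 : ℕ) fun x : E (m + 1) => G (‖x‖ ^ 2) := p.cd.comp (contDiff_norm_sq ℝ)

theorem Step.LL (p : Step m lam F G) :
    Eb (L (L fun x : E (m + 1) => G (‖x‖ ^ 2))) fun x => lam / (1 - F (‖x‖ ^ 2)) := fun x hx => by
  rw [(L_rad (p.cd.of_le (by norm_cast))).L x hx, L_rad (cd_A p.cd) x hx]
  exact p.eqn _ (nsq_mem hx)

theorem Step.bd (p : Step m lam F G) {x : E (m + 1)} (hx : x ∈ sphere (0 : E (m + 1)) 1) :
    G (‖x‖ ^ 2) = 0 ∧
      fderivWithin ℝ (fun x : E (m + 1) => G (‖x‖ ^ 2)) (closedBall 0 1) x x = 0 := by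
  have e : ‖x‖ = 1 := by simpa using hx
  refine ⟨by simp [e, p.one], ?_⟩
  rw [(p.smooth.differentiable (by simp) x).fderivWithin (ud x (sphere_subset_closedBall hx))]
  have := R_rad (p.cd.differentiable (by simp)) x
  simpa [R, e, p.der] using this

theorem Step.regular (p : Step m lam F F) (h0 : 0 ≤ lam) :
    IsRegular (m + 1) lam fun x => F (‖x‖ ^ 2) :=
  ⟨p.smooth.contDiffOn, fun x hx => (bilap_eq (Sm.rad p.cd) x hx).trans (p.LL x hx),
    fun _ hx => (p.bd hx).1, fun _ hx => (p.bd hx).2, fun _ hx => p.nonneg h0 _ (nsq_mem hx),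
    F 0, p.lt 0 (by simp), fun _ hx => p.bds h0 (p.nonneg h0) _ (nsq_mem hx)⟩

theorem Step.le_reg (p : Step m lam F G) (hw : IsRegular (m + 1) lam' w) (h0 : 0 ≤ lam)
    (h1 : lam ≤ lam') (h : ∀ x ∈ ball (0 : E (m + 1)) 1, F (‖x‖ ^ 2) ≤ w x) :
    ∀ x ∈ ball (0 : E (m + 1)) 1, G (‖x‖ ^ 2) ≤ w x := by
  have ws : ContDiffOn ℝ (4 : ℕ) w (closedBall 0 1) := hw.smooth
  have s1 : Sm 4 w := sm_of ws
  have s2 : Sm 4 fun x : E (m + 1) => G (‖x‖ ^ 2) := Sm.rad p.cd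
  have := boggio (Nat.succ_pos m) (h := fun x => w x + -1 * G (‖x‖ ^ 2))
    (ws.add (contDiffOn_const.mul p.smooth.contDiffOn))
    (fun x hx => by simp [hw.zero x hx, (p.bd hx).1]) (fun x hx => by
      have hx' := sphere_subset_closedBall hx
      have d1 := ws.differentiableOn (by simp) x hx'
      have d2 := (p.smooth.differentiable (by simp) x).differentiableWithinAt
        (s := closedBall 0 1)
      rw [fderivWithin_fun_add (ud x hx') d1 (d2.const_mul _),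
        fderivWithin_const_mul (ud x hx') d2]
      simp [hw.normal x hx, (p.bd hx).2]) fun x hx => by
      have t2 := s2.mono (l := 2) (by norm_num)
      have e : Eb (L fun x => w x + -1 * G (‖x‖ ^ 2))
          fun x => L w x + -1 * L (fun x : E (m + 1) => G (‖x‖ ^ 2)) x := fun y hy => by
        rw [L_add (s1.mono (by norm_num)) ((Sm.const _).mul t2) y hy]
        beta_reduce
        rw [L_cmul t2 _ y hy]
      rw [e.L x hx, L_add s1.L ((Sm.const _).mul s2.L) x hx]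
      beta_reduce
      rw [L_cmul s2.L _ x hx]
      beta_reduce
      rw [p.LL x hx, ← bilap_eq s1 x hx, hw.eqn x hx]
      obtain ⟨c, c1, c2⟩ := hw.sup_lt
      have : lam / (1 - F (‖x‖ ^ 2)) ≤ lam' / (1 - w x) :=
        div_le_div₀ (h0.trans h1) h1 (by linarith [c2 x hx]) (by linarith [h x hx])
      linarith
  intro x hx
  linarith [this x (ball_subset_closedBall hx)]

theorem Lim.le_reg (p : Lim m lam F) (hw : IsRegular (m + 1) lam' w) (h0 : 0 ≤ lam)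
    (h1 : lam ≤ lam') : ∀ x ∈ ball (0 : E (m + 1)) 1, F (‖x‖ ^ 2) ≤ w x := by
  obtain ⟨-, u, u0, us, ut⟩ := p
  have : ∀ k, ∀ x ∈ ball (0 : E (m + 1)) 1, u k (‖x‖ ^ 2) ≤ w x := by
    intro k
    induction k with
    | zero => simpa [u0] using hw.nonneg
    | succ k ih => exact (us k).le_reg hw h0 h1 ih
  exact fun x hx => le_of_tendsto' (ut _ (nsq_mem hx)) fun k => this k x hx

theorem le_of_ball {c : ℝ} (h1 : F 1 = 0) (hc : 0 ≤ c)
    (h : ∀ x ∈ ball (0 : E (m + 1)) 1, F (‖x‖ ^ 2) ≤ c) : ∀ s ∈ Icc (0 : ℝ) 1, F s ≤ c := by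
  intro s hs
  rcases hs.2.eq_or_lt with e | d
  · rwa [e, h1]
  · have e : ‖(EuclideanSpace.single 0 √s : E (m + 1))‖ = √s := by
      simp [abs_of_nonneg (Real.sqrt_nonneg s)]
    have := h (EuclideanSpace.single 0 √s) (by
      rw [mem_ball_zero_iff, e, Real.sqrt_lt' one_pos]; simpa using d)
    rwa [e, Real.sq_sqrt hs.1] at this

theorem lim_of_reg (hw : IsRegular (m + 1) lam' w) (h0 : 0 ≤ lam) (h1 : lam ≤ lam') :
    ∃ F, Lim m lam F := by
  obtain ⟨c, c1, c2⟩ := hw.sup_lt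
  have z : (0 : E (m + 1)) ∈ ball 0 1 := mem_ball_self one_pos
  exact exists_lim h0 c1 (fun F => F 1 = 0 ∧ ∀ x ∈ ball (0 : E (m + 1)) 1, F (‖x‖ ^ 2) ≤ w x)
    ⟨rfl, hw.nonneg⟩ (fun F G hF _ p => ⟨p.one, p.le_reg hw h0 h1 hF.2⟩)
    fun F hF => le_of_ball hF.1 ((hw.nonneg 0 z).trans (c2 0 z))
      fun x hx => (hF.2 x hx).trans (c2 x hx)

theorem bi_bump : Bi m (fun r => (1 - r ^ 2) ^ 2) (fun r => 4 * r ^ 3 - 4 * r)
    (fun _ => PP m 4) ∧ 24 ≤ PP m 4 := by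
  have hm : (0 : ℝ) ≤ m := Nat.cast_nonneg m
  refine ⟨(((Bi.rpow 4 1 (by right; right; constructor; right; linarith; linarith)).lin 1 1
    (Bi.rpow 2 (-2) (by right; right; constructor; left; rfl; linarith))).lin
    1 1 (Bi.const 1)).congr (fun r _ => ?_) (fun r _ => ?_) fun r _ => ?_, ?_⟩
  · norm_num; ring
  · norm_num; ring
  · have : PP m 2 = 0 := by simp [PP]
    norm_num [this]
  · simp only [PP]
    nlinarith

theorem one_mem : (1 : ℝ) ∈ Params (m + 1) := by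
  obtain ⟨F, hF⟩ := exists_lim (m := m) zero_le_one (c := 1 / 2) (by norm_num)
    (fun F => ∀ s ∈ Icc (0 : ℝ) 1, F s ≤ 1 / 2) (by norm_num) (fun F G hF _ p => by
      refine le_of_sq p.cd.continuous continuous_const fun r hr => ?_
      have := (Bi.sq (m := m) p.cd).le (bi_bump.1.lin (1 / 2) 0 bi_bump.1) (R := 1) (c := 0)
        (fun r hr => by
          have := hF _ (sq_mem hr)
          rw [p.eqn _ (sq_mem hr), div_le_iff₀ (by linarith)]
          nlinarith [(bi_bump (m := m)).2]) (by simp [p.der]) (by simp [p.one]) r hr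
      have a := sq_mem hr
      nlinarith [a.1, a.2]) fun _ h => h
  exact ⟨one_pos, _, hF.1.regular zero_le_one⟩

theorem bdd : BddAbove (Params (m + 1)) := by
  refine ⟨2 * PP m 4, ?_⟩
  rintro lam ⟨h0, w, hw⟩
  obtain ⟨F, p, -⟩ := lim_of_reg hw h0.le le_rfl
  have P := (bi_bump (m := m)).2
  have P0 : 0 < PP m 4 := by linarith
  have := (bi_bump.1.lin (lam / PP m 4) 0 bi_bump.1).le (Bi.sq (m := m) p.cd) (R := 1) (c := 0)
    (fun r hr => by
      have a1 := p.lt _ (sq_mem hr)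
      have a2 := p.nonneg h0.le _ (sq_mem hr)
      rw [p.eqn _ (sq_mem hr), div_mul_cancel₀ _ P0.ne', le_div_iff₀ (by linarith)]
      nlinarith) (by simp [p.der]) (by simp [p.one]) (1 / 2) (by norm_num)
  have a1 := p.lt _ (sq_mem (r := 1 / 2) (by norm_num))
  have : lam / PP m 4 ≤ 2 := by linarith
  rwa [div_le_iff₀ P0] at this

theorem star_pos : 0 < lamStar (m + 1) := one_pos.trans_le (le_csSup bdd one_mem)

theorem exists_fam : ∃ Φ : ℝ → ℝ → ℝ, ∀ lam ∈ Ioo 0 (lamStar (m + 1)), Lim m lam (Φ lam) := by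
  have : ∀ lam : ℝ, ∃ F, lam ∈ Ioo 0 (lamStar (m + 1)) → Lim m lam F := by
    intro lam
    by_cases h : lam ∈ Ioo 0 (lamStar (m + 1))
    · obtain ⟨l, ⟨-, w, hw⟩, hl⟩ := exists_lt_of_lt_csSup ⟨_, one_mem⟩ h.2
      obtain ⟨F, hF⟩ := lim_of_reg hw h.1.le hl.le
      exact ⟨F, fun _ => hF⟩
    · exact ⟨0, fun g => absurd g h⟩
  choose Φ hΦ using this
  exact ⟨Φ, hΦ⟩

theorem Lim.minimal (p : Lim m lam F) (h0 : 0 ≤ lam) :
    IsMinimal (m + 1) lam fun x => F (‖x‖ ^ 2) :=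
  ⟨p.1.regular h0, fun _ hw => p.le_reg hw h0 le_rfl⟩

theorem Lim.mono (p : Lim m lam F) (q : Lim m lam' G) (h0 : 0 ≤ lam) (h1 : lam ≤ lam') :
    ∀ s ∈ Icc (0 : ℝ) 1, F s ≤ G s := by
  obtain ⟨-, u, u0, us, ut⟩ := p
  have : ∀ k, ∀ s ∈ Icc (0 : ℝ) 1, u k s ≤ G s := by
    intro k
    induction k with
    | zero => simpa [u0] using q.1.nonneg (h0.trans h1)
    | succ k ih => exact fun s hs => sub_nonneg.1 ((us k).diff q.1 h0 h1 ih s hs).1
  exact fun s hs => le_of_tendsto' (ut s hs) fun k => this k s hs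

theorem exists_extremal : ∃ v, IsExtremal (m + 1) v := by
  obtain ⟨Φ, hΦ⟩ := exists_fam (m := m)
  refine ⟨fun x => sSup ((fun lam => Φ lam (‖x‖ ^ 2)) '' Ioo 0 (lamStar (m + 1))),
    fun lam x => Φ lam (‖x‖ ^ 2), fun lam h => (hΦ lam h).minimal h.1.le, fun x hx => ?_⟩
  refine MonotoneOn.tendsto_nhdsWithin_Ioo_left (nonempty_Ioo.2 star_pos)
    (fun a ha b hb hab => (hΦ a ha).mono (hΦ b hb) ha.1.le hab _ (nsq_mem hx)) ⟨1, ?_⟩
  rintro _ ⟨a, ha, rfl⟩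
  exact ((hΦ a ha).1.lt _ (nsq_mem hx)).le

theorem extremal_iff {v : E (m + 1) → ℝ} (hv : IsExtremal (m + 1) v) :
    ∃ Φ : ℝ → ℝ → ℝ, (∀ lam ∈ Ioo 0 (lamStar (m + 1)), Lim m lam (Φ lam)) ∧
      ∀ x ∈ ball (0 : E (m + 1)) 1,
        Tendsto (fun lam => Φ lam (‖x‖ ^ 2)) (𝓝[<] lamStar (m + 1)) (𝓝 (v x)) := by
  obtain ⟨Φ, hΦ⟩ := exists_fam (m := m)
  obtain ⟨U, h1, h2⟩ := hv
  refine ⟨Φ, hΦ, fun x hx => (h2 x hx).congr' ?_⟩
  filter_upwards [Ioo_mem_nhdsLT star_pos] with lam h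
  exact le_antisymm ((h1 lam h).2 _ ((hΦ lam h).1.regular h.1.le) x hx)
    ((hΦ lam h).le_reg (h1 lam h).1 h.1.le le_rfl x hx)

theorem regular_case (hm : m < 6) {v : E (m + 1) → ℝ} (hv : IsExtremal (m + 1) v) :
    ∃ c < 1, ∀ x ∈ ball (0 : E (m + 1)) 1, v x ≤ c := by
  obtain ⟨Φ, hΦ, ht⟩ := extremal_iff hv
  obtain ⟨Z0, z0, hZ⟩ := reg (cert hm)
  have s0 := star_pos (m := m)
  have : 0 < √(lamStar (m + 1) / 2) * Z0 := by positivity
  refine ⟨1 - √(lamStar (m + 1) / 2) * Z0, by linarith, fun x hx => le_of_tendsto (ht x hx) ?_⟩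
  filter_upwards [Ioo_mem_nhdsLT (half_lt_self s0)] with lam h
  have h0 : 0 < lam := by linarith [h.1]
  obtain ⟨l, l1, l2⟩ := exists_between h.2
  have p := hΦ lam ⟨h0, h.2⟩
  have q := hΦ l ⟨h0.trans l1, l2⟩
  have a1 := hZ lam l _ _ h0 l1 p.1 q.1 (p.mono q h0.le l1.le)
  have a2 := p.1.bds h0.le (p.1.nonneg h0.le) _ (nsq_mem hx)
  have a3 := mul_le_mul_of_nonneg_right (Real.sqrt_le_sqrt h.1.le) z0.le
  linarith

theorem singular_case (hm : 6 ≤ m) {v : E (m + 1) → ℝ} (hv : IsExtremal (m + 1) v) :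
    IsLUB (v '' ball 0 1) 1 := by
  obtain ⟨Φ, hΦ, ht⟩ := extremal_iff hv
  have s0 := star_pos (m := m)
  constructor
  · rintro _ ⟨x, hx, rfl⟩
    refine le_of_tendsto (ht x hx) ?_
    filter_upwards [Ioo_mem_nhdsLT s0] with lam h
    exact ((hΦ lam h).1.lt _ (nsq_mem hx)).le
  · intro c hc
    by_contra c1
    obtain ⟨δ, δ0, hδ⟩ := sing hm s0 (not_le.1 c1)
    obtain ⟨lam, l1, l2⟩ := exists_between (max_lt s0 (sub_lt_self _ δ0))
    have h0 := (le_max_left _ _).trans_lt l1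
    have p := hΦ lam ⟨h0, l2⟩
    have a1 : ∀ x ∈ ball (0 : E (m + 1)) 1, Φ lam (‖x‖ ^ 2) ≤ c := by
      intro x hx
      refine (ge_of_tendsto (ht x hx) ?_).trans (hc ⟨x, hx, rfl⟩)
      filter_upwards [Ioo_mem_nhdsLT l2] with l h
      exact p.mono (hΦ l ⟨h0.trans h.1, h.2⟩) h0.le h.1.le _ (nsq_mem hx)
    have z : (0 : E (m + 1)) ∈ ball 0 1 := mem_ball_self one_pos
    obtain ⟨G, hG⟩ := hδ lam _ h0 l2.le p.1 (le_of_ball p.1.one
      ((p.1.nonneg h0.le _ (nsq_mem z)).trans (a1 0 z)) a1)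
    have : lam + δ ≤ lamStar (m + 1) :=
      le_csSup bdd ⟨by positivity, _, hG.1.regular (by positivity)⟩
    linarith [(le_max_right _ _).trans_lt l1]

end Pool.Agent.MP_a8d80e_an.H53
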