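import Pool.Agent.MP_a8d80e_an.H53.Iter

set_option autoImplicit false

namespace Pool.Agent.MP_a8d80e_an.H53

open Filter Topology Set

variable {m : ℕ} {lam lam' : ℝ} {F F' : ℝ → ℝ}

/-- a supersolution and a stable subsolution that are ordered near the origin stay ordered -/
theorem order {p p1 fp q q1 fq g g1 l : ℝ → ℝ} {M : ℝ} (bp : Bi m p p1 fp) (bq : Bi m q q1 fq)
    (bg : Bi m g g1 l) (hp : ∀ r ∈ Ioc (0 : ℝ) 1, 0 < p r ∧ p r ≤ M ∧ p r * fp r ≤ -1)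
    (hq : ∀ r ∈ Ioc (0 : ℝ) 1, 0 < q r ∧ -1 ≤ q r * fq r) (h1 : q1 1 ≤ p1 1)
    (hg : ∀ r ∈ Ioc (0 : ℝ) 1, 0 ≤ g r ∧ 1 / q r ^ 2 * g r ≤ l r) (g0 : 0 < g 1) (g2 : g1 1 ≤ 0)
    (h0 : ∀ᶠ r in 𝓝[>] 0, q r < p r) : ∀ r ∈ Ioc (0 : ℝ) 1, q r < p r := by
  have bd := bp.lin 1 (-1) bq
  have l0 : ∀ r ∈ Ioc (0 : ℝ) 1, 0 ≤ l r := fun r hr =>
    (mul_nonneg (by positivity) (hg r hr).1).trans (hg r hr).2
  intro a ha
  have := pos_of_no_turn ha.2 (fun r hr => bd.d1 r (ha.1.trans_le hr.1)) (by linarith)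
    (fun R hR h2 => by
      by_contra h3
      have R0 := ha.1.trans_le hR.1
      have sub : ∀ r ∈ Ioc 0 R, r ∈ Ioc (0 : ℝ) 1 := fun r hr => ⟨hr.1, hr.2.trans hR.2⟩
      have := bd.sweep bg (R := R) (M := M) (W := fun r => 1 / q r ^ 2) (fun _ _ => by positivity)
        (g0.trans_le (bg.anti l0 g2 R0 hR.2 le_rfl)) (bg.deriv_nonpos l0 g2 R ⟨R0, hR.2⟩)
        (fun r hr => (hg r (sub r hr)).1) (fun r hr => (hg r (sub r hr)).2)
        (fun r hr => by linarith [(hp r (sub r hr)).2.1, (hq r (sub r hr)).1])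
        (fun r hr => by
          obtain ⟨a1, -, a2⟩ := hp r (sub r hr)
          obtain ⟨a3, a4⟩ := hq r (sub r hr)
          have b1 : fp r ≤ -1 / p r := by rw [le_div_iff₀ a1]; linarith
          have b2 : -1 / q r ≤ fq r := by rw [div_le_iff₀ a3]; linarith
          have b3 : -1 / p r - -1 / q r ≤ 1 / q r ^ 2 * (1 * p r + -1 * q r) := by
            have : 1 / q r ^ 2 * (1 * p r + -1 * q r) - (-1 / p r - -1 / q r) =
                (p r - q r) ^ 2 / (p r * q r ^ 2) := by field_simp; ring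
            have : 0 ≤ (p r - q r) ^ 2 / (p r * q r ^ 2) := by positivity
            linarith
          have b4 := mul_le_mul_of_nonneg_left (le_max_left (1 * p r + -1 * q r) 0)
            (show 0 ≤ 1 / q r ^ 2 by positivity)
          linarith) (not_lt.1 h3) h2
      obtain ⟨r, c1, c2⟩ := (h0.and (Ioc_mem_nhdsGT R0)).exists
      linarith [this r c2]) a ⟨le_rfl, ha.2⟩
  linarith

theorem Step.bds (p : Step m lam F F) (h0 : 0 ≤ lam) (h : ∀ s ∈ Icc (0 : ℝ) 1, 0 ≤ F s) :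
    ∀ s ∈ Icc (0 : ℝ) 1, F s ≤ F 0 := fun s hs => by
  simpa using (Step.zero.diff p le_rfl h0 h s hs).2

theorem Step.nonneg {G : ℝ → ℝ} (p : Step m lam F G) (h0 : 0 ≤ lam) :
    ∀ s ∈ Icc (0 : ℝ) 1, 0 ≤ G s := by
  refine le_of_sq continuous_const p.cd.continuous fun r hr => ?_
  have := (Bi.sq (m := m) p.cd).anti (R := 1) (fun r hr => by
    rw [p.eqn _ (sq_mem hr)]
    exact div_nonneg h0 (sub_pos.2 (p.lt _ (sq_mem hr))).le) (by simp [p.der]) hr.1 hr.2 le_rfl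
  simpa [p.one] using this

/-- the normalized distance to the obstacle -/
theorem Step.norm (p : Step m lam F F) (h0 : 0 < lam) : ∃ v1 fv : ℝ → ℝ,
    Bi m (fun r => (1 - F (r ^ 2)) / √lam) v1 fv ∧ v1 1 = 0 ∧
      ∀ r ∈ Ioc (0 : ℝ) 1, (1 - F (r ^ 2)) / √lam * fv r = -1 := by
  have hμ := Real.sqrt_pos.2 h0
  refine ⟨_, _, ((Bi.const 1).lin (1 / √lam) (-1 / √lam) (Bi.sq p.cd)).congr
    (fun r _ => by ring) (fun _ _ => rfl) (fun _ _ => rfl), by simp [p.der], fun r hr => ?_⟩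
  have := (sub_pos.2 (p.lt _ (sq_mem hr))).ne'
  rw [p.eqn _ (sq_mem hr)]
  field_simp
  rw [Real.sq_sqrt h0.le]
  ring

/-- a certificate of instability near the obstacle -/
def Cert (m : ℕ) : Prop := ∃ (Z Z1 fZ φ φ1 fφ : ℝ → ℝ) (Z0 M r1 : ℝ),
  Bi m Z Z1 fZ ∧ Bi m φ φ1 fφ ∧ 0 < Z0 ∧ (∀ r ∈ Ioc (0 : ℝ) 1, Z0 ≤ Z r ∧ Z r ≤ M ∧
    Z r * fZ r ≤ -1 ∧ φ r ≤ M ∧ (Z r ^ 2 * fφ r ≤ φ r ∨ fφ r ≤ 0)) ∧ 0 ≤ Z1 1 ∧ φ 1 ≤ 0 ∧
    0 ≤ φ1 1 ∧ r1 ∈ Ioc (0 : ℝ) 1 ∧ 0 < φ r1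

theorem reg (hC : Cert m) : ∃ Z0 > 0, ∀ lam lam' F F', 0 < lam → lam < lam' → Step m lam F F →
    Step m lam' F' F' → (∀ s ∈ Icc (0 : ℝ) 1, F s ≤ F' s) → √lam * Z0 ≤ 1 - F 0 := by
  obtain ⟨Z, Z1, fZ, φ, φ1, fφ, Z0, M, r1, bZ, bφ, z0, hZ, z1, f0, f1, hr1, f2⟩ := hC
  refine ⟨Z0, z0, fun lam lam' F F' h0 h1 p p' hle => ?_⟩
  by_contra hc
  push Not at hc
  have hμ := Real.sqrt_pos.2 h0
  obtain ⟨v1, fv, bv, e1, e2⟩ := p.norm h0
  have m0 : 0 < 1 - F 0 := sub_pos.2 (p.lt 0 (by simp))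
  have vb := p.bds h0.le (p.nonneg h0.le)
  have vp : ∀ r ∈ Ioc (0 : ℝ) 1, 0 < (1 - F (r ^ 2)) / √lam := fun r hr =>
    div_pos (sub_pos.2 (p.lt _ (sq_mem hr))) hμ
  set η := (lam' - lam) * (1 - F 0) ^ 2 / lam with hη
  have η0 : 0 < η := by have := sub_pos.2 h1; positivity
  have bE := (((Bi.sq (m := m) p'.cd).lin 1 (-1) (Bi.sq p.cd)).lin 1 1 (Bi.const η))
  have hE : ∀ r ∈ Ioc (0 : ℝ) 1, 0 ≤ 1 * (1 * F' (r ^ 2) + -1 * F (r ^ 2)) + 1 * η ∧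
      1 / ((1 - F (r ^ 2)) / √lam) ^ 2 * (1 * (1 * F' (r ^ 2) + -1 * F (r ^ 2)) + 1 * η) ≤
      1 * (1 * A (m + 1) (A (m + 1) F') (r ^ 2) + -1 * A (m + 1) (A (m + 1) F) (r ^ 2)) +
        1 * 0 := by
    intro r hr
    have hs := sq_mem hr
    have a1 := hle _ hs
    have a2 := sub_pos.2 (p'.lt _ hs)
    have a3 := sub_pos.2 (p.lt _ hs)
    have a4 := p'.nonneg (h0.trans h1).le _ hs
    have a5 := vb _ hs
    refine ⟨by linarith, ?_⟩
    rw [p.eqn _ hs, p'.eqn _ hs, div_pow, Real.sq_sqrt h0.le, one_div_div]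
    generalize F (r ^ 2) = x at *
    generalize F' (r ^ 2) = y at *
    have b1 : lam / (1 - x) ^ 2 * η ≤ lam' - lam := by
      rw [hη, div_mul_div_comm, div_le_iff₀ (by positivity)]
      have : (1 - F 0) ^ 2 ≤ (1 - x) ^ 2 := pow_le_pow_left₀ m0.le (by linarith) 2
      have := mul_le_mul_of_nonneg_left this (mul_pos h0 (sub_pos.2 h1)).le
      linarith
    have b2 : lam' - lam ≤ (lam' - lam) / (1 - y) := by
      rw [le_div_iff₀ a2]
      nlinarith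
    have b3 : lam / (1 - y) - lam / (1 - x) - lam / (1 - x) ^ 2 * (y - x) =
        lam * (y - x) ^ 2 / ((1 - y) * (1 - x) ^ 2) := by field_simp; ring
    have b4 : 0 ≤ lam * (y - x) ^ 2 / ((1 - y) * (1 - x) ^ 2) := by positivity
    rw [sub_div] at b2
    linarith
  have E0 : 0 < 1 * (1 * F' (1 ^ 2) + -1 * F (1 ^ 2)) + 1 * η := by simpa [p.one, p'.one]
  have E1 : 1 * (1 * (2 * 1 * deriv F' (1 ^ 2)) + -1 * (2 * 1 * deriv F (1 ^ 2))) + 1 * 0 ≤ 0 := by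
    simp [p.der, p'.der]
  have lt := order bZ bv bE (M := M)
    (fun r hr => ⟨z0.trans_le (hZ r hr).1, (hZ r hr).2.1, (hZ r hr).2.2.1⟩)
    (fun r hr => ⟨vp r hr, (e2 r hr).ge⟩) (e1 ▸ z1) hE E0 E1 (by
      have c : Continuous fun r : ℝ => (1 - F (r ^ 2)) / √lam := by
        have := p.cd.continuous
        fun_prop
      have t := (c.tendsto 0).eventually (gt_mem_nhds (a := Z0) (by
        rw [div_lt_iff₀ hμ]; simpa [mul_comm] using hc))
      filter_upwards [t.filter_mono nhdsWithin_le_nhds, Ioc_mem_nhdsGT one_pos] with r a1 a2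
      exact a1.trans_le (hZ r a2).1)
  have := bφ.sweep bE (R := 1) (M := M) (W := fun r => 1 / ((1 - F (r ^ 2)) / √lam) ^ 2)
    (fun _ _ => by positivity) E0 E1 (fun r hr => (hE r hr).1) (fun r hr => (hE r hr).2)
    (fun r hr => (hZ r hr).2.2.2.1) (fun r hr => by
      have a1 := vp r hr
      have a2 := lt r hr
      have a3 : 0 ≤ 1 / ((1 - F (r ^ 2)) / √lam) ^ 2 * max (φ r) 0 := by positivity
      rcases le_total (fφ r) 0 with c | c
      · exact c.trans a3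
      rcases (hZ r hr).2.2.2.2 with d | d
      · rw [one_div_mul_eq_div, le_div_iff₀ (by positivity)]
        have := mul_le_mul_of_nonneg_left (pow_le_pow_left₀ a1.le a2.le 2) c
        linarith [le_max_left (φ r) 0]
      · exact d.trans a3) f0 f1 r1 hr1
  linarith

/-- continuation of a regular solution whose linearization has a positive supersolution -/
theorem cont {z z1 fz g g1 l : ℝ → ℝ} (hm : 1 ≤ m) (bz : Bi m z z1 fz) (bg : Bi m g g1 l)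
    (hz : ∀ r ∈ Ioc (0 : ℝ) 1, 0 < z r ∧ -1 ≤ z r * fz r) (z2 : z1 1 ≤ 0)
    (z0 : Tendsto z (𝓝[>] 0) (𝓝 0))
    (hg : ∀ r ∈ Ioc (0 : ℝ) 1, 0 ≤ g r ∧ 1 / z r ^ 2 * g r ≤ l r) (g0 : 0 < g 1) (g2 : g1 1 ≤ 0)
    (g3 : ∀ r ∈ Ioc (0 : ℝ) 1, g r ≤ 2 * r⁻¹) {Λ c : ℝ} (hΛ : 0 < Λ) (hc : c < 1) :
    ∃ δ > 0, ∀ lam F, 0 < lam → lam ≤ Λ → Step m lam F F → (∀ s ∈ Icc (0 : ℝ) 1, F s ≤ c) →
      ∃ G, Lim m (lam + δ) G := by
  obtain ⟨a, ha, ha0⟩ : ∃ a, a = 1 - c ∧ 0 < a := ⟨_, rfl, sub_pos.2 hc⟩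
  obtain ⟨M, hM, M0⟩ : ∃ M, M = Λ / a ^ 2 ∧ 0 < M := ⟨_, rfl, by positivity⟩
  obtain ⟨K, hK, K0⟩ : ∃ K, K = 2 * M + g 1 ∧ 0 < K := ⟨_, rfl, by positivity⟩
  obtain ⟨ε, ε0, ε1, ε2⟩ : ∃ ε, 0 < ε ∧ ε * K ≤ a / 2 ∧ 2 * Λ / a ^ 3 * K ^ 2 * ε ≤ g 1 / 2 := by
    refine ⟨min (a / 2 / K) (g 1 / 2 / (2 * Λ / a ^ 3 * K ^ 2)), by positivity, ?_, ?_⟩
    · exact (le_div_iff₀ K0).1 (min_le_left _ _)
    · exact (le_div_iff₀' (by positivity)).1 (min_le_right _ _)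
  have P3 : 1 ≤ PP m 3 := by
    have : (1 : ℝ) ≤ m := by exact_mod_cast hm
    simp only [PP]
    nlinarith
  have P0 : 0 < PP m 3 := by linarith
  have b3 : Bi m (fun r => (r ^ 3 - 3 / 2 * r ^ 2 + 1 / 2) / PP m 3)
      (fun r => (3 * r ^ 2 - 3 * r) / PP m 3) fun r => r⁻¹ := by
    have hm' : (1 : ℝ) ≤ m := by exact_mod_cast hm
    refine (((Bi.rpow 3 1 (by right; right; constructor; right; linarith; linarith)).lin 1 1
      (Bi.rpow 2 (-3 / 2) (by right; right; constructor; left; rfl; linarith))).lin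
      (1 / PP m 3) (1 / PP m 3) (Bi.const (1 / 2))).congr (fun r _ => ?_) (fun r _ => ?_)
      fun r _ => ?_
    · norm_num; ring
    · norm_num; ring
    · have : PP m 2 = 0 := by simp [PP]
      norm_num [this, Real.rpow_neg_one]
      field_simp
  have h3 : ∀ r ∈ Ioc (0 : ℝ) 1, (r ^ 3 - 3 / 2 * r ^ 2 + 1 / 2) / PP m 3 ≤ 1 := by
    intro r hr
    rw [div_le_one P0]
    nlinarith [hr.1, hr.2, mul_nonneg (sq_nonneg r) (sub_nonneg.2 hr.2)]
  refine ⟨ε * g 1 * a / 4, by positivity, fun lam F h0 h1 p hle => ?_⟩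
  have hμ := Real.sqrt_pos.2 h0
  obtain ⟨v1, fv, bv, e1, e2⟩ := p.norm h0
  have F0 := p.nonneg h0.le
  have lt := order bv bz bg (M := 1 / √lam) (fun r hr =>
    ⟨div_pos (sub_pos.2 (p.lt _ (sq_mem hr))) hμ, div_le_div_of_nonneg_right
      (by linarith [F0 _ (sq_mem hr)]) hμ.le, (e2 r hr).le⟩) hz (e1 ▸ z2) hg g0 g2 (by
      filter_upwards [z0.eventually (gt_mem_nhds (a := a / √lam) (by positivity)),
        Ioc_mem_nhdsGT one_pos] with r a1 a2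
      exact a1.trans_le (div_le_div_of_nonneg_right (by linarith [hle _ (sq_mem a2)]) hμ.le))
  refine exists_lim (by positivity) (c := c + a / 2) (by linarith)
    (fun G => (∀ r ∈ Ioc (0 : ℝ) 1, G (r ^ 2) ≤ F (r ^ 2) + ε * g r) ∧
      ∀ s ∈ Icc (0 : ℝ) 1, G s ≤ F s + ε * K)
    ⟨fun r hr => add_nonneg (F0 _ (sq_mem hr)) (mul_nonneg ε0.le (hg r hr).1),
      fun s hs => add_nonneg (F0 s hs) (by positivity)⟩ (fun G G' hG _ q => ?_)
    fun G hG s hs => by linarith [hG.2 s hs, hle s hs]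
  have key : ∀ r ∈ Ioc (0 : ℝ) 1, A (m + 1) (A (m + 1) G') (r ^ 2) ≤
      A (m + 1) (A (m + 1) F) (r ^ 2) + lam / (1 - F (r ^ 2)) ^ 2 * (ε * g r) + ε * g 1 * r⁻¹ := by
    intro r hr
    have hs := sq_mem hr
    rw [p.eqn _ hs, q.eqn _ hs]
    have a1 := hG.1 r hr
    have a2 := hG.2 _ hs
    have a3 := hle _ hs
    have a4 := mul_nonneg ε0.le (hg r hr).1
    have a5 : ε * g 1 ≤ ε * g 1 * r⁻¹ :=
      le_mul_of_one_le_right (by positivity) ((one_le_inv₀ hr.1).2 hr.2)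
    obtain ⟨y, y0, y1, y2, y3⟩ : ∃ y, 0 ≤ y ∧ G (r ^ 2) - F (r ^ 2) ≤ y ∧ y ≤ ε * g r ∧
        y ≤ ε * K := ⟨max (G (r ^ 2) - F (r ^ 2)) 0, le_max_right _ _, le_max_left _ _,
          max_le (by linarith) a4, max_le (by linarith) (by positivity)⟩
    obtain ⟨v, hv⟩ : ∃ v, v = 1 - F (r ^ 2) := ⟨_, rfl⟩
    have va : a ≤ v := by linarith
    have v0 : 0 < v := by linarith
    have vy : a / 2 ≤ v - y := by linarith
    have vy0 : 0 < v - y := by linarith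
    rw [← hv]
    have b1 : (lam + ε * g 1 * a / 4) / (1 - G (r ^ 2)) ≤ (lam + ε * g 1 * a / 4) / (v - y) :=
      div_le_div_of_nonneg_left (by positivity) vy0 (by linarith)
    have b2 : lam / (v - y) = lam / v + lam / v ^ 2 * y + lam * y ^ 2 / (v ^ 2 * (v - y)) := by
      field_simp; ring
    have b4 : lam * y ^ 2 / (v ^ 2 * (v - y)) ≤ Λ * (ε * K) ^ 2 / (a ^ 2 * (a / 2)) := by
      gcongr
    have b5 : Λ * (ε * K) ^ 2 / (a ^ 2 * (a / 2)) = ε * (2 * Λ / a ^ 3 * K ^ 2 * ε) := by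
      field_simp
    have b6 := mul_le_mul_of_nonneg_left ε2 ε0.le
    have b7 : ε * g 1 * a / 4 / (v - y) ≤ ε * g 1 * a / 4 / (a / 2) := by gcongr
    have b8 : ε * g 1 * a / 4 / (a / 2) = ε * g 1 / 2 := by field_simp; ring
    have b9 : lam / v ^ 2 * y ≤ lam / v ^ 2 * (ε * g r) := by gcongr
    rw [add_div lam _ (v - y)] at b1
    linarith
  have bF := Bi.sq (m := m) p.cd
  have bG := Bi.sq (m := m) q.cd
  refine ⟨fun r hr => ?_, le_of_sq q.cd.continuous (p.cd.continuous.add continuous_const)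
    fun r hr => ?_⟩
  · have := bG.le ((bF.lin 1 ε bg).lin 1 (ε * g 1) b3) (R := 1) (c := ε * g 1) (fun r hr => by
      have a1 := key r hr
      have a2 := (hg r hr).2
      have a3 : lam / (1 - F (r ^ 2)) ^ 2 ≤ 1 / z r ^ 2 := by
        have : lam / (1 - F (r ^ 2)) ^ 2 = 1 / ((1 - F (r ^ 2)) / √lam) ^ 2 := by
          rw [div_pow, Real.sq_sqrt h0.le, one_div_div]
        rw [this]
        have := (hz r hr).1
        have := (lt r hr).le
        gcongr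
      have a4 := mul_le_mul_of_nonneg_right a3 (mul_nonneg ε0.le (hg r hr).1)
      have a5 := mul_le_mul_of_nonneg_left a2 ε0.le
      linarith) (by simp [p.der, q.der]; nlinarith) (by norm_num [p.one, q.one]) r hr
    have a1 := mul_le_mul_of_nonneg_left (h3 r hr) (show 0 ≤ ε * g 1 by positivity)
    linarith
  · have := bG.le (bF.lin 1 (ε * K) b3) (R := 1) (c := 0) (fun r hr => by
      have a1 := key r hr
      have a3 : lam / (1 - F (r ^ 2)) ^ 2 ≤ M := by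
        have : a ≤ 1 - F (r ^ 2) := by linarith [hle _ (sq_mem hr)]
        rw [hM]
        gcongr
      have a4 := mul_le_mul a3 (mul_le_mul_of_nonneg_left (g3 r hr) ε0.le)
        (mul_nonneg ε0.le (hg r hr).1) M0.le
      rw [hK]
      linarith) (by simp [p.der, q.der]) (by norm_num [p.one, q.one]) r hr
    have a1 := mul_le_mul_of_nonneg_left (h3 r hr) (show 0 ≤ ε * K by positivity)
    change G' (r ^ 2) ≤ F (r ^ 2) + ε * K
    linarith

end Pool.Agent.MP_a8d80e_an.H53
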