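import Pool.Agent.MP_a8d80e_an.H53.Lap

set_option autoImplicit false

namespace Pool.Agent.MP_a8d80e_an.H53

open Filter Topology Set

/-- `h1` is the derivative of `h` and `k` its radial Laplacian in dimension `m + 1`, with no
mass at the origin -/
structure Lp (m : ℕ) (h h1 k : ℝ → ℝ) : Prop where
  d1 : ∀ r > 0, HasDerivAt h (h1 r) r
  d2 : ∀ r > 0, HasDerivAt (fun r => r ^ m * h1 r) (r ^ m * k r) r
  lim : Tendsto (fun r => r ^ m * h1 r) (𝓝[>] 0) (𝓝 0)

/-- `h1` is the derivative of `h` and `f` its radial bilaplacian -/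
def Bi (m : ℕ) (h h1 f : ℝ → ℝ) : Prop := ∃ k k1, Lp m h h1 k ∧ Lp m k k1 f

variable {m : ℕ} {h h1 k f g g1 l : ℝ → ℝ}

theorem Lp.lin (a b : ℝ) (p : Lp m h h1 k) (q : Lp m g g1 l) :
    Lp m (fun r => a * h r + b * g r) (fun r => a * h1 r + b * g1 r)
      (fun r => a * k r + b * l r) := by
  have e : (fun r : ℝ => r ^ m * (a * h1 r + b * g1 r)) =
      fun r => a * (r ^ m * h1 r) + b * (r ^ m * g1 r) := by ext r; ring
  refine ⟨fun r hr => ((p.d1 r hr).const_mul a).add ((q.d1 r hr).const_mul b), fun r hr => ?_, ?_⟩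
  · rw [e]
    refine (((p.d2 r hr).const_mul a).add ((q.d2 r hr).const_mul b)).congr_deriv ?_
    ring
  · rw [e]
    simpa using (p.lim.const_mul a).add (q.lim.const_mul b)

theorem Lp.congr {h' h1' k' : ℝ → ℝ} (p : Lp m h h1 k) (e0 : ∀ r > 0, h' r = h r)
    (e1 : ∀ r > 0, h1' r = h1 r) (e2 : ∀ r > 0, k' r = k r) : Lp m h' h1' k' := by
  refine ⟨fun r hr => ?_, fun r hr => ?_, p.lim.congr' ?_⟩
  · rw [e1 r hr]
    refine (p.d1 r hr).congr_of_eventuallyEq ?_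
    filter_upwards [lt_mem_nhds hr] with s hs using e0 s hs
  · rw [e2 r hr]
    refine (p.d2 r hr).congr_of_eventuallyEq ?_
    filter_upwards [lt_mem_nhds hr] with s hs
    rw [e1 s hs]
  · filter_upwards [self_mem_nhdsWithin] with s hs
    rw [e1 s hs]

theorem Bi.lin (a b : ℝ) (p : Bi m h h1 f) (q : Bi m g g1 l) :
    Bi m (fun r => a * h r + b * g r) (fun r => a * h1 r + b * g1 r)
      (fun r => a * f r + b * l r) :=
  let ⟨_, _, p1, p2⟩ := p
  let ⟨_, _, q1, q2⟩ := q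
  ⟨_, _, p1.lin a b q1, p2.lin a b q2⟩

theorem Bi.congr {h' h1' f' : ℝ → ℝ} (p : Bi m h h1 f) (e0 : ∀ r > 0, h' r = h r)
    (e1 : ∀ r > 0, h1' r = h1 r) (e2 : ∀ r > 0, f' r = f r) : Bi m h' h1' f' :=
  let ⟨_, _, p1, p2⟩ := p
  ⟨_, _, p1.congr e0 e1 fun _ _ => rfl, p2.congr (fun _ _ => rfl) (fun _ _ => rfl) e2⟩

theorem Bi.d1 (p : Bi m h h1 f) : ∀ r > 0, HasDerivAt h (h1 r) r :=
  let ⟨_, _, p1, _⟩ := p
  p1.d1

theorem mono_of {a b : ℝ} (hab : a ≤ b) (hd : ∀ r ∈ Icc a b, HasDerivAt g (g1 r) r)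
    (h0 : ∀ r ∈ Icc a b, 0 ≤ g1 r) : g a ≤ g b :=
  monotoneOn_of_deriv_nonneg (convex_Icc a b)
    (fun r hr => (hd r hr).continuousAt.continuousWithinAt)
    (fun r hr => (hd r (interior_subset hr)).differentiableAt.differentiableWithinAt)
    (fun r hr => (hd r (interior_subset hr)).deriv ▸ h0 r (interior_subset hr))
    (left_mem_Icc.2 hab) (right_mem_Icc.2 hab) hab

theorem anti_of {a b : ℝ} (hab : a ≤ b) (hd : ∀ r ∈ Icc a b, HasDerivAt g (g1 r) r)
    (h0 : ∀ r ∈ Icc a b, g1 r ≤ 0) : g b ≤ g a := by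
  have := mono_of (g := fun r => -g r) (g1 := fun r => -g1 r) hab (fun r hr => (hd r hr).neg)
    fun r hr => neg_nonneg.2 (h0 r hr)
  simpa using this

theorem nonneg_of {b : ℝ} (hb : 0 < b) (hd : ∀ r > 0, HasDerivAt g (g1 r) r)
    (h0 : ∀ r ∈ Ioc 0 b, 0 ≤ g1 r) (hl : Tendsto g (𝓝[>] 0) (𝓝 0)) : 0 ≤ g b := by
  refine le_of_tendsto hl ?_
  filter_upwards [Ioc_mem_nhdsGT hb] with a ha
  exact mono_of ha.2 (fun r hr => hd r (ha.1.trans_le hr.1))
    fun r hr => h0 r ⟨ha.1.trans_le hr.1, hr.2⟩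

/-- the radial positivity principle: the derivative -/
theorem Bi.deriv_nonpos (p : Bi m h h1 f) {R : ℝ} (hf : ∀ r ∈ Ioc 0 R, 0 ≤ f r) (hR : h1 R ≤ 0) :
    ∀ r ∈ Ioc 0 R, h1 r ≤ 0 := by
  obtain ⟨k, k1, p1, p2⟩ := p
  have a1 : ∀ r ∈ Ioc 0 R, 0 ≤ k1 r := fun r hr =>
    (mul_nonneg_iff_of_pos_left (pow_pos hr.1 m)).1 (nonneg_of (b := r) hr.1 p2.d2
      (fun s hs => mul_nonneg (pow_pos hs.1 m).le (hf s ⟨hs.1, hs.2.trans hr.2⟩)) p2.lim)
  have a2 : ∀ a b, 0 < a → a ≤ b → b ≤ R → k a ≤ k b := fun a b ha hab hb =>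
    mono_of hab (fun r hr => p2.d1 r (ha.trans_le hr.1))
      fun r hr => a1 r ⟨ha.trans_le hr.1, hr.2.trans hb⟩
  intro r hr
  have key : r ^ m * h1 r ≤ 0 := by
    rcases le_total (k r) 0 with c | c
    · have := nonneg_of (g := fun r => -(r ^ m * h1 r)) hr.1 (fun s hs => (p1.d2 s hs).neg)
        (fun s hs => neg_nonneg.2 (mul_nonpos_of_nonneg_of_nonpos (pow_pos hs.1 m).le
          ((a2 s r hs.1 hs.2 hr.2).trans c))) (by simpa using p1.lim.neg)
      linarith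
    · refine (mono_of hr.2 (fun s hs => p1.d2 s (hr.1.trans_le hs.1)) fun s hs =>
        mul_nonneg (pow_pos (hr.1.trans_le hs.1) m).le (c.trans (a2 r s hr.1 hs.1 hs.2))).trans ?_
      exact mul_nonpos_of_nonneg_of_nonpos (pow_pos (hr.1.trans_le hr.2) m).le hR
  by_contra c
  exact absurd (mul_pos (pow_pos hr.1 m) (not_le.1 c)) (not_lt.2 key)

/-- the radial positivity principle -/
theorem Bi.anti (p : Bi m h h1 f) {R : ℝ} (hf : ∀ r ∈ Ioc 0 R, 0 ≤ f r) (hR : h1 R ≤ 0)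
    {a b : ℝ} (ha : 0 < a) (hab : a ≤ b) (hb : b ≤ R) : h b ≤ h a :=
  anti_of hab (fun r hr => p.d1 r (ha.trans_le hr.1))
    fun r hr => p.deriv_nonpos hf hR r ⟨ha.trans_le hr.1, hr.2.trans hb⟩

/-- comparison of two radial functions -/
theorem Bi.le (p : Bi m h h1 f) (q : Bi m g g1 l) {R c : ℝ} (hf : ∀ r ∈ Ioc 0 R, f r ≤ l r)
    (hR : g1 R ≤ h1 R) (h0 : h R + c ≤ g R) : ∀ r ∈ Ioc 0 R, h r + c ≤ g r := by
  intro r hr
  have := (q.lin 1 (-1) p).anti (R := R) (fun s hs => by have := hf s hs; linarith)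
    (by linarith) hr.1 hr.2 le_rfl
  linarith

/-- the sweeping principle for an operator with a positive supersolution -/
theorem Bi.sweep (p : Bi m h h1 f) (q : Bi m g g1 l) {R M : ℝ} {W : ℝ → ℝ}
    (hW : ∀ r ∈ Ioc 0 R, 0 ≤ W r) (hg : 0 < g R) (hg1 : g1 R ≤ 0)
    (hg0 : ∀ r ∈ Ioc 0 R, 0 ≤ g r) (hl : ∀ r ∈ Ioc 0 R, W r * g r ≤ l r)
    (hM : ∀ r ∈ Ioc 0 R, h r ≤ M) (hf : ∀ r ∈ Ioc 0 R, f r ≤ W r * max (h r) 0)
    (h0 : h R ≤ 0) (h2 : 0 ≤ h1 R) : ∀ r ∈ Ioc 0 R, h r ≤ 0 := by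
  have gη : ∀ r ∈ Ioc 0 R, g R ≤ g r := fun r hr =>
    q.anti (fun s hs => (mul_nonneg (hW s hs) (hg0 s hs)).trans (hl s hs)) hg1 hr.1 hr.2 le_rfl
  set M' := max M 0 with hM'
  have M0 : 0 ≤ M' := le_max_right _ _
  let S : Set ℝ := {κ | 0 ≤ κ ∧ ∀ r ∈ Ioc 0 R, h r ≤ κ * g r}
  have Sne : S.Nonempty := ⟨M' / g R, by positivity, fun r hr =>
    (hM r hr).trans ((le_max_left _ _).trans (by
      rw [div_mul_eq_mul_div, le_div_iff₀ hg]
      exact mul_le_mul_of_nonneg_left (gη r hr) M0))⟩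
  have Sb : BddBelow S := ⟨0, fun _ h => h.1⟩
  have Sc : IsClosed S := by
    have : S = Ici 0 ∩ ⋂ r ∈ Ioc 0 R, {κ | h r ≤ κ * g r} := by
      ext κ; simp [S]
    rw [this]
    exact isClosed_Ici.inter (isClosed_biInter fun r _ =>
      isClosed_le continuous_const (by fun_prop))
  obtain ⟨κ0, κ1⟩ := Sc.csInf_mem Sne Sb
  set κ := sInf S with hκ
  rcases κ0.eq_or_lt with e | κp
  · intro r hr
    simpa [← e] using κ1 r hr
  exfalso
  have step : ∀ r ∈ Ioc 0 R, h r + κ * g R ≤ κ * g r := by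
    have := p.le (q.lin κ 0 q) (R := R) (c := κ * g R) (fun r hr => by
      have a1 := mul_le_mul_of_nonneg_left (max_le (κ1 r hr) (mul_nonneg κ0 (hg0 r hr))) (hW r hr)
      have a2 := mul_le_mul_of_nonneg_left (hl r hr) κ0
      have := hf r hr
      linarith) (by nlinarith) (by linarith)
    simpa using this
  set N := 2 * M' / κ + 2 * g R with hN
  have N1 : 0 ≤ 2 * M' / κ := by positivity
  have N0 : 0 < N := by positivity
  set θ := g R / N with hθ
  have θ0 : 0 < θ := by positivity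
  have θ1 : θ ≤ 1 / 2 := by rw [hθ, div_le_iff₀ N0]; linarith
  have θN : θ * N = g R := div_mul_cancel₀ _ N0.ne'
  have hS : κ * (1 - θ) ∈ S := by
    refine ⟨mul_nonneg κ0 (by linarith), fun r hr => ?_⟩
    rcases le_total (g r) N with c | c
    · have := mul_le_mul_of_nonneg_left c (mul_pos κp θ0).le
      have := step r hr
      nlinarith
    · have a1 : 2 * M' / κ * κ = 2 * M' := div_mul_cancel₀ _ κp.ne'
      have a2 : h r ≤ M' := (hM r hr).trans (le_max_left _ _)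
      have a3 : 2 * M' ≤ κ * g r := by nlinarith
      have a4 := mul_le_mul_of_nonneg_left θ1 (mul_nonneg κ0 (hg0 r hr))
      nlinarith
  have := csInf_le Sb hS
  nlinarith

/-- a function that never has a nonpositive value with nonnegative slope stays positive -/
theorem pos_of_no_turn {a : ℝ} (ha : a ≤ 1) (hd : ∀ r ∈ Icc a 1, HasDerivAt h (h1 r) r)
    (h2 : 0 ≤ h1 1) (H : ∀ R ∈ Icc a 1, 0 ≤ h1 R → 0 < h R) : ∀ r ∈ Icc a 1, 0 < h r := by
  obtain ⟨R, hR, hm⟩ := isCompact_Icc.exists_isMinOn (nonempty_Icc.2 ha)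
    (fun r hr => (hd r hr).continuousAt.continuousWithinAt)
  refine fun r hr => (H R hR ?_).trans_le (hm hr)
  rcases hR.2.eq_or_lt with e | c
  · exact e ▸ h2
  · refine ge_of_tendsto (hd R hR).tendsto_slope_zero_right ?_
    filter_upwards [Ioo_mem_nhdsGT (sub_pos.2 c)] with t ht
    have : h R ≤ h (R + t) := hm ⟨by linarith [hR.1, ht.1], by linarith [ht.2]⟩
    exact smul_nonneg (inv_nonneg.2 ht.1.le) (sub_nonneg.2 this)

theorem Lp.rpow (a c : ℝ) (ha : c * a = 0 ∨ 0 < a + m - 1) :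
    Lp m (fun r => c * r ^ a) (fun r => c * a * r ^ (a - 1))
      (fun r => c * a * (a + m - 1) * r ^ (a - 2)) := by
  have e : ∀ r : ℝ, 0 < r → r ^ m * (c * a * r ^ (a - 1)) = c * a * r ^ (a + m - 1) := by
    intro r hr
    rw [show a + m - 1 = m + (a - 1) by ring, Real.rpow_add hr, Real.rpow_natCast]
    ring
  refine ⟨fun r hr => ?_, fun r hr => ?_, ?_⟩
  · refine ((Real.hasDerivAt_rpow_const (p := a) (Or.inl hr.ne')).const_mul c).congr_deriv ?_
    ring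
  · have := (Real.hasDerivAt_rpow_const (p := a + m - 1) (Or.inl hr.ne')).const_mul (c * a)
    refine (this.congr_of_eventuallyEq ?_).congr_deriv ?_
    · filter_upwards [lt_mem_nhds hr] with s hs using e s hs
    · rw [show a + m - 1 - 1 = m + (a - 2) by ring, Real.rpow_add hr, Real.rpow_natCast]
      ring
  · rcases ha with ha | ha
    · simp [ha]
    · have : Tendsto (fun r : ℝ => c * a * r ^ (a + m - 1)) (𝓝[>] 0) (𝓝 0) := by
        have := ((Real.continuousAt_rpow_const 0 _ (Or.inr ha.le)).tendsto.const_mul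
          (c * a)).mono_left (nhdsWithin_le_nhds (s := Ioi 0))
        simpa [Real.zero_rpow ha.ne'] using this
      refine this.congr' ?_
      filter_upwards [self_mem_nhdsWithin] with s hs using (e s hs).symm

/-- the symbol of the radial bilaplacian -/
def PP (m : ℕ) (a : ℝ) : ℝ := a * (a + m - 1) * (a - 2) * (a + m - 3)

theorem Bi.rpow (a c : ℝ) (ha : c = 0 ∨ a = 0 ∨ (a = 2 ∨ 0 < a + m - 3) ∧ 0 < a + m - 1) :
    Bi m (fun r => c * r ^ a) (fun r => c * a * r ^ (a - 1))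
      (fun r => c * PP m a * r ^ (a - 4)) := by
  refine ⟨_, _, Lp.rpow a c ?_, (Lp.rpow (a - 2) (c * a * (a + m - 1)) ?_).congr
    (fun _ _ => rfl) (fun _ _ => rfl) fun r _ => ?_⟩
  · rcases ha with h | h | h
    · simp [h]
    · simp [h]
    · exact Or.inr h.2
  · rcases ha with h | h | ⟨h | h, -⟩
    · simp [h]
    · simp [h]
    · simp [h]
    · right; linarith
  · rw [show a - 2 - 2 = a - 4 by ring, PP]
    ring

theorem Lp.sq {F : ℝ → ℝ} (hF : ContDiff ℝ (2 : ℕ) F) :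
    Lp m (fun r => F (r ^ 2)) (fun r => 2 * r * deriv F (r ^ 2))
      (fun r => A (m + 1) F (r ^ 2)) := by
  have h1 := cd_deriv hF
  have d0 : Differentiable ℝ F := hF.differentiable (by simp)
  have d1 : Differentiable ℝ (deriv F) := h1.differentiable (by simp)
  have sq : ∀ r : ℝ, HasDerivAt (fun r : ℝ => r ^ 2) (2 * r) r := fun r => by
    simpa using hasDerivAt_pow 2 r
  have e : (fun r : ℝ => r ^ m * (2 * r * deriv F (r ^ 2))) =
      fun r => 2 * r ^ (m + 1) * deriv F (r ^ 2) := by ext r; ring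
  refine ⟨fun r _ => ?_, fun r _ => ?_, ?_⟩
  · refine ((d0 _).hasDerivAt.comp r (sq r)).congr_deriv ?_
    ring
  · rw [e]
    refine (((hasDerivAt_pow (m + 1) r).const_mul 2).mul
      ((d1 _).hasDerivAt.comp r (sq r))).congr_deriv ?_
    simp only [A, Function.comp]
    push_cast
    ring
  · rw [e]
    have : Continuous fun r : ℝ => 2 * r ^ (m + 1) * deriv F (r ^ 2) := by
      have := d1.continuous
      fun_prop
    simpa using (this.tendsto 0).mono_left (nhdsWithin_le_nhds (s := Ioi 0))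

theorem Bi.sq {F : ℝ → ℝ} (hF : ContDiff ℝ (4 : ℕ) F) :
    Bi m (fun r => F (r ^ 2)) (fun r => 2 * r * deriv F (r ^ 2))
      (fun r => A (m + 1) (A (m + 1) F) (r ^ 2)) :=
  ⟨_, _, Lp.sq (hF.of_le (by norm_cast)), Lp.sq (cd_A hF)⟩

theorem Bi.const (c : ℝ) : Bi m (fun _ => c) (fun _ => 0) fun _ => 0 :=
  (Bi.rpow 0 c (Or.inr (Or.inl rfl))).congr (by simp) (by simp) (by simp [PP])

end Pool.Agent.MP_a8d80e_an.H53
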